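import Pool.Agent.Helper52K9.DL.Curve
import Pool.Agent.Helper93K9.DC.Core

/-! From derivatives to algebraic dependence, and the general criterion. -/

set_option autoImplicit false

namespace Pool.Agent.Helper52K9.DL

open MvPolynomial Pool.Agent.R867.Mov Pool.Agent.R867.J Pool.Agent.R867.H Pool.Agent.R867.D
open Pool.Agent.Helper93K9.DC

universe u v w

section

variable {k K : Type u} [Field k] [Field K] [Algebra k K] {N : ℕ} {ξ : Fin (N + 1) → K}
  {f : MvPolynomial (Fin N) k}

/-- a function whose derivatives with respect to the coordinates in `I` vanish is algebraic over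
the other coordinates -/
theorem out_set [CharZero k] {x : Fin N → K} {w : K} (hw : w ^ 2 = aeval x f)
    (htop : IntermediateField.adjoin k (insert w (Set.range x)) = ⊤)
    {D : Fin N → Derivation k K K} (hD : ∀ l m : Fin N, D l (x m) = if m = l then 1 else 0)
    {I : Set (Fin N)} {a : K} (h : ∀ l ∈ I, D l a = 0) : a ∈ cl k (x '' Iᶜ) := by
  classical
  have hcK : CharZero K := charZero_of_injective_algebraMap (algebraMap k K).injective
  have key : ∀ J : Finset (Fin N), (∀ l ∈ J, l ∈ I) → a ∈ cl k (x '' (J : Set (Fin N))ᶜ) := by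
    intro J
    induction J using Finset.induction_on with
    | empty =>
      intro _
      rw [Finset.coe_empty, Set.compl_empty, Set.image_univ]
      exact mem_cl_all (by norm_num) hw htop a
    | insert l J hl ih =>
      intro hJ
      have h1 := ih fun m hm => hJ m (Finset.mem_insert_of_mem hm)
      by_contra hcon
      have h2 : x '' (J : Set (Fin N))ᶜ ⊆ insert (x l) (x '' ((insert l J : Finset (Fin N)) :
          Set (Fin N))ᶜ) := by
        rintro _ ⟨m, hm, rfl⟩
        by_cases hml : m = l
        · rw [hml]
          exact Set.mem_insert _ _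
        · refine Set.mem_insert_of_mem _ ⟨m, ?_, rfl⟩
          rw [Finset.coe_insert]
          rintro (h3 | h3)
          · exact hml h3
          · exact hm h3
      have h3 := cl_exch (cl_mono h2 h1) hcon
      have h4 := der_cl (D l) (S := insert a (x '' ((insert l J : Finset (Fin N)) :
          Set (Fin N))ᶜ)) (by
        rintro y (rfl | ⟨m, hm, rfl⟩)
        · exact h l (hJ l (Finset.mem_insert_self _ _))
        · rw [hD, if_neg]
          rintro rfl
          apply hm
          rw [Finset.coe_insert]
          exact Set.mem_insert _ _) h3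
      rw [hD, if_pos rfl] at h4
      exact one_ne_zero h4
  have h1 := key (Finset.univ.filter (fun l => l ∈ I)) (fun l hl => (Finset.mem_filter.mp hl).2)
  refine cl_mono ?_ h1
  rintro _ ⟨m, hm, rfl⟩
  refine ⟨m, fun h2 => hm ?_, rfl⟩
  rw [Finset.coe_filter]
  exact ⟨Finset.mem_univ m, h2⟩

/-- families of curves of degree two -/
theorem kill_curve2 [CharZero k] (hξ : GP (cover f) ξ)
    (hF0 : aeval (fun l : Fin N => ξ l.succ) f ≠ 0)
    {γ : Fin N → Polynomial (Polynomial K)} {r p : Polynomial (Polynomial K)}
    (hγ0 : ∀ l, (γ l).coeff 0 = Polynomial.C (ξ l.succ)) (hr0 : r.coeff 0 = 1)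
    (hp : p.natDegree ≤ 2) (heq : aeval γ f = r ^ 2 * p) {D : Fin N → Derivation k K K}
    (hD : ∀ l m : Fin N, D l (ξ m.succ) = if m = l then 1 else 0)
    {Ω : Type w} [Field Ω] (κ : K →+* Ω) {s₀ : Ω}
    (hE0 : (denP p).eval₂ κ s₀ ≠ 0) {a : K} (ha : Imm k a) :
    ∑ l, ((γ l).coeff 1).eval₂ κ s₀ * κ (D l a) = 0 := by
  have hcK : CharZero K := charZero_of_injective_algebraMap (algebraMap k K).injective
  have hde0 : denP p ≠ 0 := by
    intro h0
    apply hE0
    rw [h0, Polynomial.eval₂_zero]
  obtain ⟨q, hq⟩ : ∃ q : Polynomial K, q = ∑ l, (γ l).coeff 1 * Polynomial.C (D l a) := ⟨_, rfl⟩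
  have hq0 : q * denP p = 0 := by
    apply Polynomial.eq_zero_of_infinite_isRoot
    have hinf : (Set.range (algebraMap k K)).Infinite :=
      Set.infinite_range_of_injective (algebraMap k K).injective
    refine hinf.mono ?_
    rintro _ ⟨c, rfl⟩
    change (q * denP p).IsRoot (algebraMap k K c)
    rw [Polynomial.IsRoot, Polynomial.eval_mul]
    by_cases hc : (denP p).eval (algebraMap k K c) = 0
    · rw [hc, mul_zero]
    · obtain ⟨E, hE⟩ : ∃ E : Polynomial K →+* K,
        E = Polynomial.evalRingHom (algebraMap k K c) := ⟨_, rfl⟩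
      have hE' : ∀ P, E P = P.eval (algebraMap k K c) := fun P => by rw [hE]; rfl
      have hmap : ∀ g : MvPolynomial (Fin N) k,
          aeval (fun l => (γ l).map E) g = (aeval γ g).map E := by
        intro g
        induction g using MvPolynomial.induction_on with
        | C c =>
          rw [aeval_C, aeval_C]
          have h1 : algebraMap k (Polynomial (Polynomial K)) c =
              Polynomial.C (Polynomial.C (algebraMap k K c)) := rfl
          have h2 : algebraMap k (Polynomial K) c = Polynomial.C (algebraMap k K c) := rfl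
          rw [h1, h2, Polynomial.map_C, hE', Polynomial.eval_C]
        | add p q hp hq => rw [map_add, map_add, hp, hq, Polynomial.map_add]
        | mul_X p m hp => rw [map_mul, map_mul, hp, aeval_X, aeval_X, Polynomial.map_mul]
      have hden : denP p = (p.coeff 1 ^ 2 - 4 * p.coeff 0 * p.coeff 2) ^ 2 := by
        unfold denP
        rw [Polynomial.coeff_eq_zero_of_natDegree_lt (n := 4) (by omega)]
        ring
      have h1 := kill_conic hξ hF0 (γ := fun l => (γ l).map E) (r := r.map E) (p := p.map E)
        (D := D) (fun l => by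
          rw [Polynomial.coeff_map, hγ0, hE', Polynomial.eval_C]) (by
          rw [Polynomial.coeff_map, hr0, map_one]) (Polynomial.natDegree_map_le.trans hp) (by
          rw [hmap, heq, Polynomial.map_mul, Polynomial.map_pow]) hD (by
          intro h0
          apply hc
          rw [← hE', hden, map_pow]
          rw [Polynomial.coeff_map, Polynomial.coeff_map, Polynomial.coeff_map, ← map_pow,
            ← map_ofNat E 4, ← map_mul, ← map_mul, ← map_sub] at h0
          rw [h0]
          norm_num) ha
      have h2 : q.eval (algebraMap k K c) = 0 := by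
        rw [← h1, hq, Polynomial.eval_finsetSum]
        refine Finset.sum_congr rfl fun l _ => ?_
        rw [Polynomial.eval_mul, Polynomial.eval_C, Polynomial.coeff_map, hE']
      rw [h2, zero_mul]
  have hq1 : q = 0 := (mul_eq_zero.mp hq0).resolve_right hde0
  have h1 := congrArg (Polynomial.eval₂ κ s₀) hq1
  rw [hq, Polynomial.eval₂_finsetSum, Polynomial.eval₂_zero] at h1
  rw [← h1]
  refine Finset.sum_congr rfl fun l _ => ?_
  rw [Polynomial.eval₂_mul, Polynomial.eval₂_C]

/-- the general criterion in terms of derivations -/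
theorem rel_of_der [CharZero k] (hξ : GP (cover f) ξ) (hf : Irreducible f) {I : Set (Fin N)}
    {i₀ : Fin N} (hi₀ : i₀ ∈ I) (hdi₀ : 1 ≤ degreeOf i₀ f) (h4 : ∀ l ∉ I, degreeOf l f ≤ 4)
    (hbase : ∀ D : Fin N → Derivation k K K,
      (∀ l m : Fin N, D l (ξ m.succ) = if m = l then 1 else 0) → ∀ a, Imm k a → ∀ l ∈ I,
        D l a = 0) : Rel k ξ Set.univ := by
  have hind := ind_cover hξ hf
  have hw := sq_cover hξ
  have htop := top_cover hξ
  choose D hD using fun l : Fin N => Pool.Agent.H135R2.VS.exists_der hind
    (fun m : Fin N => if m = l then 1 else 0)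
  intro a ha
  rw [Set.compl_univ, Set.image_empty]
  refine all_out hind hf (r := 2) (by norm_num) hw htop (I₀ := I)
    (fun a ha => out_set hw htop hD (hbase D hD a ha)) ?_ a ha
  intro l hl hpos
  obtain ⟨T, hT1, hT2⟩ := self2 hind hf hw htop hpos (h4 l hl)
  refine ⟨T, hT1, ?_⟩
  rw [hT2]
  exact notMem_cl_A hind hf (i₀ := i₀) (S := Iᶜ) hl (fun h => h hi₀) hdi₀
    (C2_dvd l f) (D2_dvd l f) (by norm_num) (not_dvd_pderiv hpos)

end

end Pool.Agent.Helper52K9.DL
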