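import Pool.Agent.Helper52K9.DL.Base

/-! The general criterion: families of curves over the generic point. -/

set_option autoImplicit false

namespace Pool.Agent.Helper52K9.DL

open MvPolynomial Pool.Agent.R867.Mov Pool.Agent.R867.J Pool.Agent.R867.H Pool.Agent.R867.D
open Pool.Agent.Helper93K9.DC

universe u v w

/-- functoriality of families of curves -/
theorem aeval_mapp {k : Type u} [Field k] {A : Type v} [CommRing A] [Algebra k A] {B : Type w}
    [CommRing B] [Algebra k B] (e : A →ₐ[k] B) {N : ℕ} (γ : Fin N → Polynomial (Polynomial A))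
    (g : MvPolynomial (Fin N) k) :
    aeval (fun l => (γ l).map (Polynomial.mapRingHom e.toRingHom)) g =
      (aeval γ g).map (Polynomial.mapRingHom e.toRingHom) := by
  induction g using MvPolynomial.induction_on with
  | C c =>
    rw [aeval_C, aeval_C]
    have h1 : algebraMap k (Polynomial (Polynomial A)) c =
        Polynomial.C (Polynomial.C (algebraMap k A c)) := rfl
    have h2 : algebraMap k (Polynomial (Polynomial B)) c =
        Polynomial.C (Polynomial.C (algebraMap k B c)) := rfl
    rw [h1, h2, Polynomial.map_C, Polynomial.coe_mapRingHom, Polynomial.map_C]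
    congr 2
    exact (e.commutes c).symm
  | add p q hp hq => rw [map_add, map_add, hp, hq, Polynomial.map_add]
  | mul_X p m hp => rw [map_mul, map_mul, hp, aeval_X, aeval_X, Polynomial.map_mul]

theorem exists_lift {F : Type v} {M : Type w} [Field F] [Field M] [IsAlgClosed M] (i : F →+* M) :
    ∃ j : AlgebraicClosure F →+* M, ∀ z, j (algebraMap F (AlgebraicClosure F) z) = i z := by
  let _ := i.toAlgebra
  exact ⟨(IsAlgClosed.lift (R := F) (S := AlgebraicClosure F) (M := M)).toRingHom, fun z =>
    AlgHom.commutes _ z⟩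

section

variable {k : Type u} [Field k] {N : ℕ} {f : MvPolynomial (Fin N) k}

/-- the tangent vectors of the families of curves along which the third differential vanishes -/
def Good (f : MvPolynomial (Fin N) k)
    (u : Fin N → AlgebraicClosure (FractionRing (MvPolynomial (Fin N) k))) : Prop :=
  ∃ (γ : Fin N → Polynomial (Polynomial (MvPolynomial (Fin N) k)))
    (r p : Polynomial (Polynomial (MvPolynomial (Fin N) k)))
    (τ : AlgebraicClosure (FractionRing (MvPolynomial (Fin N) k))),
    (∀ l, (γ l).coeff 0 = Polynomial.C (X l)) ∧ r.coeff 0 = 1 ∧ p.natDegree ≤ 4 ∧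
    aeval γ f = r ^ 2 * p ∧ (denP p).eval₂ (algebraMap _ _) τ ≠ 0 ∧
    (p.natDegree ≤ 2 ∨ (cubP p).eval₂ (algebraMap _ _) τ = 0 ∧
      (Polynomial.derivative (cubP p)).eval₂ (algebraMap _ _) τ ≠ 0) ∧
    ∀ l, u l = ((γ l).coeff 1).eval₂ (algebraMap _ _) τ

theorem der_of_good [CharZero k] {K : Type u} [Field K] [Algebra k K] {ξ : Fin (N + 1) → K}
    (hξ : GP (cover f) ξ) (hf : Irreducible f) {I : Set (Fin N)}
    (hspan : ∀ l ∈ I, Pi.single l 1 ∈ Submodule.span
      (AlgebraicClosure (FractionRing (MvPolynomial (Fin N) k))) {u | Good f u})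
    {D : Fin N → Derivation k K K} (hD : ∀ l m : Fin N, D l (ξ m.succ) = if m = l then 1 else 0)
    {a : K} (ha : Imm k a) : ∀ l ∈ I, D l a = 0 := by
  have hind := ind_cover hξ hf
  obtain ⟨x, hx⟩ : ∃ x : Fin N → K, x = fun l => ξ l.succ := ⟨_, rfl⟩
  obtain ⟨e, he⟩ : ∃ e : MvPolynomial (Fin N) k →ₐ[k] K, e = aeval x := ⟨_, rfl⟩
  have heinj : Function.Injective e := by
    rw [he, hx]
    exact hind
  have heX : ∀ l, e (X l) = ξ l.succ := fun l => by rw [he, aeval_X, hx]
  have hF0 : aeval (fun l : Fin N => ξ l.succ) f ≠ 0 := fun h0 => by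
    have h1 : e f = 0 := by rw [he, hx]; exact h0
    exact hf.ne_zero (heinj (h1.trans (map_zero e).symm))
  obtain ⟨j, hj⟩ : ∃ j : AlgebraicClosure (FractionRing (MvPolynomial (Fin N) k)) →+*
      AlgebraicClosure K, ∀ z : MvPolynomial (Fin N) k,
        j (algebraMap _ _ z) = algebraMap K (AlgebraicClosure K) (e z) := by
    obtain ⟨j, hj⟩ := exists_lift ((algebraMap K (AlgebraicClosure K)).comp
        (IsFractionRing.lift (K := FractionRing (MvPolynomial (Fin N) k))
          (g := e.toRingHom) heinj))
    refine ⟨j, fun z => ?_⟩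
    rw [IsScalarTower.algebraMap_apply (MvPolynomial (Fin N) k)
      (FractionRing (MvPolynomial (Fin N) k))
      (AlgebraicClosure (FractionRing (MvPolynomial (Fin N) k))), hj, RingHom.comp_apply,
      IsFractionRing.lift_algebraMap]
    rfl
  have hgood : ∀ u, Good f u → ∑ l, j (u l) * algebraMap K (AlgebraicClosure K) (D l a) = 0 := by
    rintro u ⟨γ, r, p, τ, h1, h2, h3, h4, h7, h56, h8⟩
    have hpoly : ∀ P : Polynomial (MvPolynomial (Fin N) k),
        (P.map e.toRingHom).eval₂ (algebraMap K (AlgebraicClosure K)) (j τ) =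
          j (P.eval₂ (algebraMap _ _) τ) := by
      intro P
      rw [Polynomial.eval₂_map, Polynomial.hom_eval₂]
      congr 1
      ext z
      · exact (hj (C z)).symm
      · exact (hj (X z)).symm
    have key : ∑ l, (((γ l).map (Polynomial.mapRingHom e.toRingHom)).coeff 1).eval₂
        (algebraMap K (AlgebraicClosure K)) (j τ) *
          algebraMap K (AlgebraicClosure K) (D l a) = 0 := by
      rcases h56 with h5 | ⟨h5, h6⟩
      · exact kill_curve2 hξ hF0 (γ := fun l => (γ l).map (Polynomial.mapRingHom e.toRingHom))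
          (r := r.map (Polynomial.mapRingHom e.toRingHom))
          (p := p.map (Polynomial.mapRingHom e.toRingHom)) (D := D) (fun l => by
            rw [Polynomial.coeff_map, h1, Polynomial.coe_mapRingHom, Polynomial.map_C]
            congr 1
            exact heX l) (by
            rw [Polynomial.coeff_map, h2, map_one]) (Polynomial.natDegree_map_le.trans h5) (by
            rw [aeval_mapp, h4, Polynomial.map_mul, Polynomial.map_pow]) hD
          (algebraMap K (AlgebraicClosure K)) (s₀ := j τ) (by
            rw [denP_map, Polynomial.coe_mapRingHom, hpoly]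
            exact (map_ne_zero j).mpr h7) ha
      · exact kill_curve hξ hF0 (γ := fun l => (γ l).map (Polynomial.mapRingHom e.toRingHom))
          (r := r.map (Polynomial.mapRingHom e.toRingHom))
          (p := p.map (Polynomial.mapRingHom e.toRingHom)) (D := D) (fun l => by
            rw [Polynomial.coeff_map, h1, Polynomial.coe_mapRingHom, Polynomial.map_C]
            congr 1
            exact heX l) (by
            rw [Polynomial.coeff_map, h2, map_one]) (Polynomial.natDegree_map_le.trans h3) (by
            rw [aeval_mapp, h4, Polynomial.map_mul, Polynomial.map_pow]) hD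
          (algebraMap K (AlgebraicClosure K)) (s₀ := j τ) (by
            rw [cubP_map, Polynomial.coe_mapRingHom, hpoly, h5, map_zero]) (by
            rw [cubP_map, Polynomial.coe_mapRingHom, Polynomial.derivative_map, hpoly]
            exact (map_ne_zero j).mpr h6) (by
            rw [denP_map, Polynomial.coe_mapRingHom, hpoly]
            exact (map_ne_zero j).mpr h7) ha
    rw [← key]
    refine Finset.sum_congr rfl fun l _ => ?_
    rw [Polynomial.coeff_map, Polynomial.coe_mapRingHom, hpoly, h8]
  intro l hl
  have hmem := hspan l hl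
  have hker : ∀ u ∈ Submodule.span (AlgebraicClosure (FractionRing (MvPolynomial (Fin N) k)))
      {u | Good f u}, ∑ l, j (u l) * algebraMap K (AlgebraicClosure K) (D l a) = 0 := by
    intro u hu
    induction hu using Submodule.span_induction with
    | mem u hu => exact hgood u hu
    | zero =>
      refine Finset.sum_eq_zero fun m _ => ?_
      rw [Pi.zero_apply, map_zero, zero_mul]
    | add u v _ _ hu hv =>
      simp only [Pi.add_apply, map_add, add_mul, Finset.sum_add_distrib, hu, hv, add_zero]
    | smul c u _ hu =>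
      simp only [Pi.smul_apply, smul_eq_mul, map_mul, mul_assoc]
      rw [← Finset.mul_sum, hu, mul_zero]
  have h1 := hker _ hmem
  rw [Finset.sum_eq_single l (fun m _ hm => by
    rw [Pi.single_eq_of_ne hm, map_zero, zero_mul]) (fun h => absurd (Finset.mem_univ l) h),
    Pi.single_eq_same, map_one, one_mul] at h1
  exact (map_eq_zero _).mp h1

/-- the criterion -/
theorem rel_crit [CharZero k] (hf : Irreducible f) {I : Set (Fin N)} {i₀ : Fin N} (hi₀ : i₀ ∈ I)
    (hdi₀ : 1 ≤ degreeOf i₀ f) (h4 : ∀ l ∉ I, degreeOf l f ≤ 4)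
    (hspan : ∀ l ∈ I, Pi.single l 1 ∈ Submodule.span
      (AlgebraicClosure (FractionRing (MvPolynomial (Fin N) k))) {u | Good f u})
    {K : Type u} [Field K] [Algebra k K] {ξ : Fin (N + 1) → K}
    (hξ : GP (cover f) ξ) : Rel k ξ Set.univ :=
  rel_of_der hξ hf hi₀ hdi₀ h4 (fun _ hD _ ha l hl => der_of_good hξ hf hspan hD ha l hl)

end

end Pool.Agent.Helper52K9.DL
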