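import Pool.Agent.Helper52K9.DL.Kill
import Pool.Agent.Helper93K9.DC.Out

/-! Self-maps of a double cover along a family of curves through the generic point. -/

set_option autoImplicit false

namespace Pool.Agent.Helper52K9.DL

open MvPolynomial Pool.Agent.R867.Mov Pool.Agent.R867.J Pool.Agent.R867.H Pool.Agent.R867.D
open Pool.Agent.Helper93K9.DC

universe u v w

/-- the third differential of the square root -/
noncomputable def cubP {R : Type v} [CommRing R] (p : Polynomial R) : R :=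
  8 * (8 * p.coeff 0 ^ 2 * p.coeff 3 - 4 * p.coeff 0 * p.coeff 1 * p.coeff 2 + p.coeff 1 ^ 3)

/-- the denominator -/
noncomputable def denP {R : Type v} [CommRing R] (p : Polynomial R) : R :=
  (4 * p.coeff 0 * p.coeff 2 - p.coeff 1 ^ 2) ^ 2 - 64 * p.coeff 0 ^ 3 * p.coeff 4

theorem cubP_map {R : Type v} [CommRing R] {S : Type w} [CommRing S] (φ : R →+* S)
    (p : Polynomial R) : cubP (p.map φ) = φ (cubP p) := by
  unfold cubP
  simp only [Polynomial.coeff_map, map_mul, map_add, map_sub, map_pow, map_ofNat]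

theorem denP_map {R : Type v} [CommRing R] {S : Type w} [CommRing S] (φ : R →+* S)
    (p : Polynomial R) : denP (p.map φ) = φ (denP p) := by
  unfold denP
  simp only [Polynomial.coeff_map, map_mul, map_sub, map_pow, map_ofNat]

/-- evaluation at an infinitesimal element -/
theorem eval_inr {A : Type v} [CommRing A] {Ω : Type w} [Field Ω] (g : A →+* DualNumber Ω) (τ : Ω)
    (P : Polynomial A) : P.eval₂ g (TrivSqZeroExt.inr τ) =
      g (P.coeff 0) + g (P.coeff 1) * TrivSqZeroExt.inr τ := by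
  have h1 : ∀ Q : Polynomial A, Q.eval₂ g (TrivSqZeroExt.inr τ) =
      Q.divX.eval₂ g (TrivSqZeroExt.inr τ) * TrivSqZeroExt.inr τ + g (Q.coeff 0) := by
    intro Q
    conv_lhs => rw [← Q.divX_mul_X_add]
    rw [Polynomial.eval₂_add, Polynomial.eval₂_mul, Polynomial.eval₂_X, Polynomial.eval₂_C]
  rw [h1 P, h1 P.divX, add_mul, mul_assoc, TrivSqZeroExt.inr_mul_inr, mul_zero, zero_add,
    Polynomial.coeff_divX]
  ring

/-- the double of the generator of the rational function field -/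
theorem eval_tt_inj {K : Type u} [Field K] {G : Polynomial K}
    (hG : G.eval₂ (algebraMap K (Rt 1 K)) (tt K) = 0) : G = 0 := by
  by_contra hG0
  exact tt_not (K := K) ⟨G, hG0, hG⟩

/-- the ring of functions which are regular where `d` is invertible -/
theorem exists_loc {K : Type u} [Field K] {d : Polynomial K} (hd : d ≠ 0) {Ω : Type w} [Field Ω]
    (κ : K →+* Ω) {s₀ : Ω} (hds : d.eval₂ κ s₀ ≠ 0) :
    ∃ (O : Type u) (_ : CommRing O) (g : Polynomial K →+* O) (u : O) (φ : O →+* Rt 1 K)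
      (ψ : O →+* DualNumber Ω), Function.Injective φ ∧ u * g d = 1 ∧
      (∀ P, φ (g P) = P.eval₂ (algebraMap K (Rt 1 K)) (tt K)) ∧
      ∀ P, ψ (g P) = TrivSqZeroExt.inl (P.eval₂ κ s₀) +
        TrivSqZeroExt.inr ((Polynomial.derivative P).eval₂ κ s₀) := by
  obtain ⟨φ₀, hφ₀⟩ : ∃ φ₀ : Polynomial K →+* Rt 1 K,
    φ₀ = Polynomial.eval₂RingHom (algebraMap K (Rt 1 K)) (tt K) := ⟨_, rfl⟩
  have hφ₀' : ∀ P, φ₀ P = P.eval₂ (algebraMap K (Rt 1 K)) (tt K) := fun P => by rw [hφ₀]; rfl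
  obtain ⟨ψ₀, hψ₀⟩ : ∃ ψ₀ : Polynomial K →+* DualNumber Ω,
    ψ₀ = Polynomial.eval₂RingHom ((TrivSqZeroExt.inlHom Ω Ω).comp κ)
      (TrivSqZeroExt.inl s₀ + TrivSqZeroExt.inr 1) := ⟨_, rfl⟩
  have hψ₀' : ∀ P, ψ₀ P = TrivSqZeroExt.inl (P.eval₂ κ s₀) +
        TrivSqZeroExt.inr ((Polynomial.derivative P).eval₂ κ s₀) := by
    intro P
    rw [hψ₀, Polynomial.coe_eval₂RingHom]
    induction P using Polynomial.induction_on' with
    | add p q hp hq =>
      rw [Polynomial.eval₂_add, hp, hq, Polynomial.eval₂_add, Polynomial.derivative_add,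
        Polynomial.eval₂_add, TrivSqZeroExt.inl_add, TrivSqZeroExt.inr_add]
      ring
    | monomial n a =>
      have hs : (TrivSqZeroExt.inl s₀ + TrivSqZeroExt.inr 1 : DualNumber Ω) ^ n =
          TrivSqZeroExt.inl (s₀ ^ n) + TrivSqZeroExt.inr (n * s₀ ^ (n - 1)) := by
        induction n with
        | zero => simp
        | succ n ih =>
          rw [pow_succ, ih]
          apply TrivSqZeroExt.ext
          · simp [pow_succ]
          · simp only [DualNumber.snd_mul, TrivSqZeroExt.fst_add, TrivSqZeroExt.fst_inl,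
              TrivSqZeroExt.fst_inr, TrivSqZeroExt.snd_add, TrivSqZeroExt.snd_inl,
              TrivSqZeroExt.snd_inr, add_zero, zero_add, mul_one, Nat.add_sub_cancel]
            rcases n with _ | n
            · simp
            · rw [Nat.add_sub_cancel]
              push_cast
              ring
      rw [Polynomial.eval₂_monomial, hs, Polynomial.derivative_monomial,
        Polynomial.eval₂_monomial, Polynomial.eval₂_monomial]
      apply TrivSqZeroExt.ext
      · simp
      · simp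
        ring
  have hφd : IsUnit (φ₀ d) := by
    rw [isUnit_iff_ne_zero]
    intro h0
    rw [hφ₀'] at h0
    exact hd (eval_tt_inj h0)
  have hψd : IsUnit (ψ₀ d) := by
    rw [TrivSqZeroExt.isUnit_iff_isUnit_fst, hψ₀', isUnit_iff_ne_zero]
    simpa using hds
  refine ⟨Localization.Away d, inferInstance, algebraMap _ _, IsLocalization.Away.invSelf d,
    IsLocalization.Away.lift d hφd, IsLocalization.Away.lift d hψd, ?_, ?_, ?_, ?_⟩
  · rw [injective_iff_map_eq_zero]
    intro z hz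
    obtain ⟨⟨P, m⟩, hP⟩ := IsLocalization.surj (Submonoid.powers d) z
    have h1 := congrArg (IsLocalization.Away.lift d hφd) hP
    rw [map_mul, hz, zero_mul, IsLocalization.Away.lift_eq, hφ₀'] at h1
    have h2 : P = 0 := eval_tt_inj h1.symm
    rw [h2, map_zero] at hP
    exact (IsUnit.mul_left_eq_zero (IsLocalization.map_units _ m)).mp hP
  · rw [mul_comm]
    exact IsLocalization.Away.mul_invSelf d
  · intro P
    rw [IsLocalization.Away.lift_eq, hφ₀']
  · intro P
    rw [IsLocalization.Away.lift_eq, hψ₀']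

/-- two square roots over the dual numbers -/
theorem sq_dual {Ω : Type w} [Field Ω] [CharZero Ω] {a b : DualNumber Ω} (h : a ^ 2 = b ^ 2)
    (h1 : a.fst = b.fst) (h0 : a.fst ≠ 0) : a = b := by
  have h2 := congrArg TrivSqZeroExt.snd h
  rw [pow_two, pow_two, DualNumber.snd_mul, DualNumber.snd_mul, ← h1] at h2
  apply TrivSqZeroExt.ext h1
  have h3 : 2 * a.fst * (a.snd - b.snd) = 0 := by linear_combination h2
  exact sub_eq_zero.mp ((mul_eq_zero.mp h3).resolve_left (mul_ne_zero two_ne_zero h0))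

section Kill

variable {k K : Type u} [Field k] [Field K] [Algebra k K] {N : ℕ} {ξ : Fin (N + 1) → K}
  {f : MvPolynomial (Fin N) k}

theorem kill_curve [CharZero k] (hξ : GP (cover f) ξ)
    (hF0 : aeval (fun l : Fin N => ξ l.succ) f ≠ 0)
    {γ : Fin N → Polynomial (Polynomial K)} {r p : Polynomial (Polynomial K)}
    (hγ0 : ∀ l, (γ l).coeff 0 = Polynomial.C (ξ l.succ)) (hr0 : r.coeff 0 = 1)
    (hp : p.natDegree ≤ 4) (heq : aeval γ f = r ^ 2 * p) {D : Fin N → Derivation k K K}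
    (hD : ∀ l m : Fin N, D l (ξ m.succ) = if m = l then 1 else 0)
    {Ω : Type w} [Field Ω] (κ : K →+* Ω) {s₀ : Ω}
    (hC0 : (cubP p).eval₂ κ s₀ = 0) (hC1 : (Polynomial.derivative (cubP p)).eval₂ κ s₀ ≠ 0)
    (hE0 : (denP p).eval₂ κ s₀ ≠ 0) {a : K} (ha : Imm k a) :
    ∑ l, ((γ l).coeff 1).eval₂ κ s₀ * κ (D l a) = 0 := by
  have hcK : CharZero K := charZero_of_injective_algebraMap (algebraMap k K).injective
  have hcΩ : CharZero Ω := charZero_of_injective_ringHom κ.injective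
  obtain ⟨x, hx⟩ : ∃ x : Fin N → K, x = fun l => ξ l.succ := ⟨_, rfl⟩
  obtain ⟨w, hw⟩ : ∃ w, w = ξ 0 := ⟨_, rfl⟩
  rw [← hx] at hF0
  have hwF : w ^ 2 = aeval x f := by
    rw [hw, hx]
    exact sq_cover hξ
  obtain ⟨F, hF⟩ : ∃ F, F = aeval x f := ⟨_, rfl⟩
  rw [← hF] at hwF hF0
  have hw0 : w ≠ 0 := by
    rintro rfl
    apply hF0
    rw [← hwF]
    norm_num
  -- the constant coefficient
  have hco : ∀ g : MvPolynomial (Fin N) k, (aeval γ g).coeff 0 = Polynomial.C (aeval x g) := by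
    intro g
    induction g using MvPolynomial.induction_on with
    | C c =>
      rw [aeval_C, aeval_C]
      exact Polynomial.coeff_C_zero
    | add p q hp hq => rw [map_add, Polynomial.coeff_add, hp, hq, map_add, map_add]
    | mul_X p m hp =>
      rw [map_mul, Polynomial.mul_coeff_zero, hp, aeval_X, hγ0, map_mul, aeval_X, map_mul, hx]
  have hp0 : p.coeff 0 = Polynomial.C F := by
    have h1 := hco f
    rw [heq, Polynomial.mul_coeff_zero, pow_two, Polynomial.mul_coeff_zero, hr0, mul_one,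
      one_mul, ← hF] at h1
    exact h1
  obtain ⟨cu, hcu⟩ : ∃ cu, cu = cubP p := ⟨_, rfl⟩
  obtain ⟨de, hde⟩ : ∃ de, de = denP p := ⟨_, rfl⟩
  rw [← hcu] at hC0 hC1
  rw [← hde] at hE0
  have hde0 : de ≠ 0 := by
    rintro h0
    apply hE0
    rw [h0, Polynomial.eval₂_zero]
  obtain ⟨O, _, g, u, φ, ψ, hφ, hu, hφg, hψg⟩ := exists_loc hde0 κ hE0
  obtain ⟨τ, hτ⟩ : ∃ τ, τ * de.eval₂ κ s₀ = κ F * (Polynomial.derivative cu).eval₂ κ s₀ :=
    ⟨κ F * (Polynomial.derivative cu).eval₂ κ s₀ / de.eval₂ κ s₀, div_mul_cancel₀ _ hE0⟩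
  have hκF0 : κ F ≠ 0 := (map_ne_zero κ).mpr hF0
  have hτ0 : τ ≠ 0 := by
    rintro rfl
    rw [zero_mul] at hτ
    exact mul_ne_zero hκF0 hC1 hτ.symm
  obtain ⟨ι, hι⟩ : ∃ ι : K →+* O, ι = g.comp Polynomial.C := ⟨_, rfl⟩
  have hιg : ∀ z, g (Polynomial.C z) = ι z := fun z => by rw [hι]; rfl
  have hιφ : ∀ z, φ (ι z) = algebraMap K (Rt 1 K) z := fun z => by
    rw [← hιg, hφg, Polynomial.eval₂_C]
  have hιψ : ∀ z, ψ (ι z) = TrivSqZeroExt.inl (κ z) := fun z => by
    rw [← hιg, hψg, Polynomial.derivative_C, Polynomial.eval₂_C, Polynomial.eval₂_zero,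
      TrivSqZeroExt.inr_zero, add_zero]
  -- the parameter on the curve
  obtain ⟨h, hh⟩ : ∃ h, h = u * (ι F * g cu) := ⟨_, rfl⟩
  have hhd : h * g de = ι F * g cu := by
    rw [hh]
    linear_combination (ι F * g cu) * hu
  have hψh : ψ h = TrivSqZeroExt.inr τ := by
    have h1 := congrArg ψ hhd
    rw [map_mul, map_mul, hιψ, hψg, hψg, hC0, TrivSqZeroExt.inl_zero, zero_add] at h1
    have h2 : IsUnit (TrivSqZeroExt.inl (de.eval₂ κ s₀) +
        TrivSqZeroExt.inr ((Polynomial.derivative de).eval₂ κ s₀) : DualNumber Ω) := by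
      rw [TrivSqZeroExt.isUnit_iff_isUnit_fst, isUnit_iff_ne_zero]
      simpa using hE0
    apply h2.mul_right_cancel
    rw [h1]
    apply TrivSqZeroExt.ext
    · simp
    · simp only [DualNumber.snd_mul, TrivSqZeroExt.fst_add, TrivSqZeroExt.fst_inl,
        TrivSqZeroExt.fst_inr, TrivSqZeroExt.snd_add, TrivSqZeroExt.snd_inl,
        TrivSqZeroExt.snd_inr, add_zero, zero_add, mul_zero, zero_mul]
      exact hτ.symm
  -- the coefficients
  obtain ⟨P0, hP0⟩ : ∃ P, P = g (p.coeff 0) := ⟨_, rfl⟩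
  obtain ⟨P1, hP1⟩ : ∃ P, P = g (p.coeff 1) := ⟨_, rfl⟩
  obtain ⟨P2, hP2⟩ : ∃ P, P = g (p.coeff 2) := ⟨_, rfl⟩
  obtain ⟨P3, hP3⟩ : ∃ P, P = g (p.coeff 3) := ⟨_, rfl⟩
  obtain ⟨P4, hP4⟩ : ∃ P, P = g (p.coeff 4) := ⟨_, rfl⟩
  have hP0F : P0 = ι F := by rw [hP0, hp0, hιg]
  have hgcu : g cu = 8 * (8 * P0 ^ 2 * P3 - 4 * P0 * P1 * P2 + P1 ^ 3) := by
    rw [hcu]
    unfold cubP
    simp only [map_mul, map_add, map_sub, map_pow, map_ofNat, ← hP0, ← hP1, ← hP2, ← hP3]
  have hgde : g de = (4 * P0 * P2 - P1 ^ 2) ^ 2 - 64 * P0 ^ 3 * P4 := by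
    rw [hde]
    unfold denP
    simp only [map_mul, map_sub, map_pow, map_ofNat, ← hP0, ← hP1, ← hP2, ← hP4]
  obtain ⟨R, hR⟩ : ∃ R, R = r.eval₂ g h := ⟨_, rfl⟩
  obtain ⟨y, hy⟩ : ∃ y : Fin (N + 1) → O, y = Fin.cons
    (R * ι (w / (8 * F ^ 2)) * (8 * P0 ^ 2 + 4 * P0 * P1 * h + (4 * P0 * P2 - P1 ^ 2) * h ^ 2))
    (fun l => (γ l).eval₂ g h) := ⟨_, rfl⟩
  have hy0 : y 0 = R * ι (w / (8 * F ^ 2)) *
      (8 * P0 ^ 2 + 4 * P0 * P1 * h + (4 * P0 * P2 - P1 ^ 2) * h ^ 2) := by rw [hy]; rfl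
  have hys : ∀ l : Fin N, y l.succ = (γ l).eval₂ g h := fun l => by
    rw [hy]
    exact Fin.cons_succ _ _ _
  -- the point lies on the double cover
  have hph : p.eval₂ g h = P0 + P1 * h + P2 * h ^ 2 + P3 * h ^ 3 + P4 * h ^ 4 := by
    rw [Polynomial.eval₂_eq_sum_range' g (Nat.lt_succ_of_le hp)]
    simp only [Finset.sum_range_succ, Finset.sum_range_zero, ← hP0, ← hP1, ← hP2, ← hP3, ← hP4]
    ring
  have hsq : (8 * P0 ^ 2 + 4 * P0 * P1 * h + (4 * P0 * P2 - P1 ^ 2) * h ^ 2) ^ 2 =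
      64 * P0 ^ 3 * p.eval₂ g h := by
    rw [hph]
    rw [hgcu, hgde, ← hP0F] at hhd
    linear_combination h ^ 3 * hhd
  have hunit : ι (w / (8 * F ^ 2)) ^ 2 * (64 * P0 ^ 3) = 1 := by
    rw [hP0F, ← map_pow, ← map_pow, show (64 : O) = ι 64 from (map_ofNat ι 64).symm, ← map_mul,
      ← map_mul, ← map_one ι]
    congr 1
    field_simp
    rw [hwF]
    ring
  have hyf : y 0 ^ 2 = R ^ 2 * p.eval₂ g h := by
    rw [hy0]
    linear_combination (R ^ 2 * ι (w / (8 * F ^ 2)) ^ 2) * hsq + R ^ 2 * p.eval₂ g h * hunit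
  have hev : ∀ P : MvPolynomial (Fin N) k,
      eval₂ (ι.comp (algebraMap k K)) (fun l : Fin N => y l.succ) P = (aeval γ P).eval₂ g h := by
    intro P
    induction P using MvPolynomial.induction_on with
    | C c =>
      rw [eval₂_C, aeval_C]
      have h1 : algebraMap k (Polynomial (Polynomial K)) c =
          Polynomial.C (Polynomial.C (algebraMap k K c)) := rfl
      rw [h1, Polynomial.eval₂_C, hιg]
      rfl
    | add p q hp hq => rw [eval₂_add, hp, hq, map_add, Polynomial.eval₂_add]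
    | mul_X p m hp => rw [eval₂_mul, hp, eval₂_X, hys, map_mul, aeval_X, Polynomial.eval₂_mul]
  have hyf' : y 0 ^ 2 = eval₂ (ι.comp (algebraMap k K)) (fun l : Fin N => y l.succ) f := by
    rw [hyf, hev, heq, Polynomial.eval₂_mul, Polynomial.eval₂_pow, ← hR]
  -- the homomorphism to the dual numbers
  obtain ⟨θ, hθ1, hθ2⟩ := exists_theta Finset.univ D κ
    (fun l => τ * ((γ l).coeff 1).eval₂ κ s₀)
  have hθk : ∀ c : k, θ (algebraMap k K c) = TrivSqZeroExt.inl (κ (algebraMap k K c)) := by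
    intro c
    apply TrivSqZeroExt.ext
    · rw [hθ1, TrivSqZeroExt.fst_inl]
    · rw [hθ2, TrivSqZeroExt.snd_inl]
      refine Finset.sum_eq_zero fun l _ => ?_
      rw [Derivation.map_algebraMap, map_zero, mul_zero]
  have hθx : ∀ l : Fin N, ψ (y l.succ) = θ (ξ l.succ) := by
    intro l
    rw [hys, Polynomial.hom_eval₂, hψh, eval_inr, hγ0, RingHom.comp_apply, RingHom.comp_apply,
      hιg, hιψ, hψg]
    apply TrivSqZeroExt.ext
    · rw [hθ1]
      simp
    · rw [hθ2, Finset.sum_eq_single l]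
      · rw [hD, if_pos rfl, map_one, mul_one]
        simp only [TrivSqZeroExt.snd_add, TrivSqZeroExt.snd_inl, DualNumber.snd_mul,
          TrivSqZeroExt.fst_add, TrivSqZeroExt.fst_inl, TrivSqZeroExt.fst_inr,
          TrivSqZeroExt.snd_inr, add_zero, zero_add, mul_zero]
        ring
      · intro m _ hm
        rw [hD, if_neg (Ne.symm hm), map_zero, mul_zero]
      · intro hl
        exact absurd (Finset.mem_univ l) hl
  have hθw : ψ (y 0) = θ (ξ 0) := by
    rw [← hw]
    apply sq_dual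
    · rw [← map_pow, ← map_pow, hyf', hwF, hF]
      have h1 : ∀ P : MvPolynomial (Fin N) k,
          ψ (eval₂ (ι.comp (algebraMap k K)) (fun l : Fin N => y l.succ) P) =
            θ (aeval x P) := by
        intro P
        induction P using MvPolynomial.induction_on with
        | C c =>
          rw [eval₂_C, aeval_C, RingHom.comp_apply, hιψ, hθk]
        | add p q hp hq => rw [eval₂_add, map_add, hp, hq, map_add, map_add]
        | mul_X p m hp =>
          rw [eval₂_mul, map_mul, hp, eval₂_X, hθx, map_mul, aeval_X, map_mul, hx]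
      exact h1 f
    · rw [hθ1, hy0, map_mul, map_mul, TrivSqZeroExt.fst_mul, TrivSqZeroExt.fst_mul, hιψ,
        TrivSqZeroExt.fst_inl, hR, Polynomial.hom_eval₂, hψh, eval_inr, hr0]
      simp only [map_add, map_mul, map_sub, map_pow, map_ofNat, hψh, hP0F, hιψ, map_one,
        TrivSqZeroExt.fst_add, TrivSqZeroExt.fst_mul, TrivSqZeroExt.fst_one,
        TrivSqZeroExt.fst_inr, mul_zero, add_zero, one_mul, TrivSqZeroExt.fst_pow,
        TrivSqZeroExt.fst_inl, zero_pow two_ne_zero, map_div₀]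
      have h8 : (8 : DualNumber Ω).fst = 8 := rfl
      rw [h8]
      field_simp
    · rw [hy0, map_mul, map_mul, TrivSqZeroExt.fst_mul, TrivSqZeroExt.fst_mul, hιψ,
        TrivSqZeroExt.fst_inl, hR, Polynomial.hom_eval₂, hψh, eval_inr, hr0]
      have h8 : (8 : DualNumber Ω).fst = 8 := rfl
      simp only [map_add, map_mul, map_sub, map_pow, map_ofNat, hψh, hP0F, hιψ, map_one,
        TrivSqZeroExt.fst_add, TrivSqZeroExt.fst_mul, TrivSqZeroExt.fst_one,
        TrivSqZeroExt.fst_inr, mul_zero, add_zero, one_mul, TrivSqZeroExt.fst_pow,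
        TrivSqZeroExt.fst_inl, zero_pow two_ne_zero, map_div₀, h8]
      field_simp
      norm_num
      exact hw0
  have hθξ : ∀ m, ψ (y m) = θ (ξ m) := fun m => by
    refine Fin.cases hθw (fun l => hθx l) m
  have hmain := kill_gen hξ.gen ι φ hφ hιφ κ ψ hιψ θ hθ1 hθk (y := y) (fun P hP => by
    obtain ⟨q, rfl⟩ := (hξ.zero_iff P).mp hP
    have h1 : aeval (fun m => φ (y m)) (cover f) = 0 := by
      rw [aeval_cover, ← map_pow, hyf']
      have h2 : ∀ P : MvPolynomial (Fin N) k,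
          φ (eval₂ (ι.comp (algebraMap k K)) (fun l : Fin N => y l.succ) P) =
            aeval (fun l : Fin N => φ (y l.succ)) P := by
        intro P
        induction P using MvPolynomial.induction_on with
        | C c =>
          rw [eval₂_C, aeval_C, RingHom.comp_apply, hιφ]
          exact (IsScalarTower.algebraMap_apply k K (Rt 1 K) c).symm
        | add p q hp hq => rw [eval₂_add, map_add, hp, hq, map_add]
        | mul_X p m hp =>
          rw [eval₂_mul, map_mul, hp, eval₂_X, map_mul, aeval_X]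
      rw [h2, sub_self]
    rw [map_mul, h1, zero_mul]) hθξ ha
  rw [hθ2] at hmain
  simp only [mul_assoc] at hmain
  rw [← Finset.mul_sum] at hmain
  exact (mul_eq_zero.mp hmain).resolve_left hτ0

/-- curves of degree two: the direction of every curve kills the immovable functions -/
theorem kill_conic [CharZero k] (hξ : GP (cover f) ξ)
    (hF0 : aeval (fun l : Fin N => ξ l.succ) f ≠ 0)
    {γ : Fin N → Polynomial K} {r p : Polynomial K}
    (hγ0 : ∀ l, (γ l).coeff 0 = ξ l.succ) (hr0 : r.coeff 0 = 1)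
    (hp : p.natDegree ≤ 2) (heq : aeval γ f = r ^ 2 * p) {D : Fin N → Derivation k K K}
    (hD : ∀ l m : Fin N, D l (ξ m.succ) = if m = l then 1 else 0)
    (hdisc : p.coeff 1 ^ 2 - 4 * p.coeff 0 * p.coeff 2 ≠ 0) {a : K} (ha : Imm k a) :
    ∑ l, (γ l).coeff 1 * D l a = 0 := by
  have hcK : CharZero K := charZero_of_injective_algebraMap (algebraMap k K).injective
  obtain ⟨x, hx⟩ : ∃ x : Fin N → K, x = fun l => ξ l.succ := ⟨_, rfl⟩
  obtain ⟨w, hw⟩ : ∃ w, w = ξ 0 := ⟨_, rfl⟩
  rw [← hx] at hF0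
  have hwF : w ^ 2 = aeval x f := by
    rw [hw, hx]
    exact sq_cover hξ
  obtain ⟨F, hF⟩ : ∃ F, F = aeval x f := ⟨_, rfl⟩
  rw [← hF] at hwF hF0
  have hw0 : w ≠ 0 := by
    rintro rfl
    apply hF0
    rw [← hwF]
    norm_num
  -- the constant coefficient
  have hco : ∀ g : MvPolynomial (Fin N) k, (aeval γ g).coeff 0 = aeval x g := by
    intro g
    induction g using MvPolynomial.induction_on with
    | C c =>
      rw [aeval_C, aeval_C]
      exact Polynomial.coeff_C_zero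
    | add p q hp hq => rw [map_add, Polynomial.coeff_add, hp, hq, map_add]
    | mul_X p m hp =>
      rw [map_mul, Polynomial.mul_coeff_zero, hp, aeval_X, hγ0, map_mul, aeval_X, hx]
  have hp0 : p.coeff 0 = F := by
    have h1 := hco f
    rw [heq, Polynomial.mul_coeff_zero, pow_two, Polynomial.mul_coeff_zero, hr0, mul_one,
      one_mul, ← hF] at h1
    exact h1
  obtain ⟨de, hde⟩ : ∃ de : Polynomial K, de = Polynomial.C (p.coeff 2) - Polynomial.X ^ 2 :=
    ⟨_, rfl⟩
  obtain ⟨s₀, hs₀⟩ : ∃ s₀ : K, s₀ * (2 * w) = p.coeff 1 :=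
    ⟨p.coeff 1 / (2 * w), div_mul_cancel₀ _ (mul_ne_zero two_ne_zero hw0)⟩
  have hE : de.eval₂ (RingHom.id K) s₀ = p.coeff 2 - s₀ ^ 2 := by
    rw [hde, Polynomial.eval₂_sub, Polynomial.eval₂_C, Polynomial.eval₂_pow, Polynomial.eval₂_X]
    rfl
  have hE0 : de.eval₂ (RingHom.id K) s₀ ≠ 0 := by
    rw [hE]
    intro h0
    apply hdisc
    rw [hp0, ← hwF, ← hs₀]
    linear_combination (-4 * w ^ 2) * h0
  have hde0 : de ≠ 0 := by
    rintro h0
    apply hE0
    rw [h0, Polynomial.eval₂_zero]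
  obtain ⟨O, _, g, u, φ, ψ, hφ, hu, hφg, hψg⟩ := exists_loc hde0 (RingHom.id K) hE0
  obtain ⟨τ, hτ⟩ : ∃ τ, τ * de.eval₂ (RingHom.id K) s₀ = 2 * w :=
    ⟨2 * w / de.eval₂ (RingHom.id K) s₀, div_mul_cancel₀ _ hE0⟩
  have hτ0 : τ ≠ 0 := by
    rintro rfl
    rw [zero_mul] at hτ
    exact mul_ne_zero two_ne_zero hw0 hτ.symm
  obtain ⟨ι, hι⟩ : ∃ ι : K →+* O, ι = g.comp Polynomial.C := ⟨_, rfl⟩
  have hιg : ∀ z, g (Polynomial.C z) = ι z := fun z => by rw [hι]; rfl
  have hιφ : ∀ z, φ (ι z) = algebraMap K (Rt 1 K) z := fun z => by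
    rw [← hιg, hφg, Polynomial.eval₂_C]
  have hιψ : ∀ z, ψ (ι z) = TrivSqZeroExt.inl ((RingHom.id K) z) := fun z => by
    rw [← hιg, hψg, Polynomial.derivative_C, Polynomial.eval₂_C, Polynomial.eval₂_zero,
      TrivSqZeroExt.inr_zero, add_zero]
  obtain ⟨lam, hlam⟩ : ∃ lam, lam = g Polynomial.X := ⟨_, rfl⟩
  have hψlam : ψ lam = TrivSqZeroExt.inl s₀ + TrivSqZeroExt.inr 1 := by
    rw [hlam, hψg, Polynomial.derivative_X, Polynomial.eval₂_X, Polynomial.eval₂_one]
  have hgde : g de = ι (p.coeff 2) - lam ^ 2 := by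
    rw [hde, map_sub, map_pow, hιg, hlam]
  -- the parameter on the curve
  obtain ⟨h, hh⟩ : ∃ h, h = u * (ι (2 * w) * lam - ι (p.coeff 1)) := ⟨_, rfl⟩
  have hhd : h * g de = ι (2 * w) * lam - ι (p.coeff 1) := by
    rw [hh]
    linear_combination (ι (2 * w) * lam - ι (p.coeff 1)) * hu
  have hψh : ψ h = TrivSqZeroExt.inr τ := by
    have h1 := congrArg ψ hhd
    rw [map_mul, map_sub, map_mul, hιψ, hιψ, hψg, hψlam] at h1
    have h2 : IsUnit (TrivSqZeroExt.inl (de.eval₂ (RingHom.id K) s₀) +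
        TrivSqZeroExt.inr ((Polynomial.derivative de).eval₂ (RingHom.id K) s₀) :
          DualNumber K) := by
      rw [TrivSqZeroExt.isUnit_iff_isUnit_fst, isUnit_iff_ne_zero]
      simpa using hE0
    apply h2.mul_right_cancel
    rw [h1]
    apply TrivSqZeroExt.ext
    · simp only [TrivSqZeroExt.fst_sub, TrivSqZeroExt.fst_mul, TrivSqZeroExt.fst_add,
        TrivSqZeroExt.fst_inl, TrivSqZeroExt.fst_inr, add_zero, zero_mul, RingHom.id_apply]
      linear_combination hs₀
    · simp only [TrivSqZeroExt.snd_sub, DualNumber.snd_mul, TrivSqZeroExt.fst_add,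
        TrivSqZeroExt.fst_inl, TrivSqZeroExt.fst_inr, TrivSqZeroExt.snd_add,
        TrivSqZeroExt.snd_inl, TrivSqZeroExt.snd_inr, add_zero, zero_add, zero_mul,
        sub_zero, RingHom.id_apply, mul_one]
      exact hτ.symm
  obtain ⟨R, hR⟩ : ∃ R, R = r.eval₂ ι h := ⟨_, rfl⟩
  obtain ⟨y, hy⟩ : ∃ y : Fin (N + 1) → O, y = Fin.cons (R * (ι w + lam * h))
    (fun l => (γ l).eval₂ ι h) := ⟨_, rfl⟩
  have hy0 : y 0 = R * (ι w + lam * h) := by rw [hy]; rfl
  have hys : ∀ l : Fin N, y l.succ = (γ l).eval₂ ι h := fun l => by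
    rw [hy]
    exact Fin.cons_succ _ _ _
  -- the point lies on the double cover
  have hph : p.eval₂ ι h = ι F + ι (p.coeff 1) * h + ι (p.coeff 2) * h ^ 2 := by
    rw [Polynomial.eval₂_eq_sum_range' ι (Nat.lt_succ_of_le hp)]
    simp only [Finset.sum_range_succ, Finset.sum_range_zero, hp0]
    ring
  have hyf : y 0 ^ 2 = R ^ 2 * p.eval₂ ι h := by
    rw [hy0, hph, ← hwF, map_pow]
    rw [hgde, map_mul, map_ofNat] at hhd
    linear_combination (-R ^ 2 * h) * hhd
  have hev : ∀ P : MvPolynomial (Fin N) k,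
      eval₂ (ι.comp (algebraMap k K)) (fun l : Fin N => y l.succ) P = (aeval γ P).eval₂ ι h := by
    intro P
    induction P using MvPolynomial.induction_on with
    | C c =>
      rw [eval₂_C, aeval_C]
      have h1 : algebraMap k (Polynomial K) c = Polynomial.C (algebraMap k K c) := rfl
      rw [h1, Polynomial.eval₂_C]
      rfl
    | add p q hp hq => rw [eval₂_add, hp, hq, map_add, Polynomial.eval₂_add]
    | mul_X p m hp => rw [eval₂_mul, hp, eval₂_X, hys, map_mul, aeval_X, Polynomial.eval₂_mul]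
  have hyf' : y 0 ^ 2 = eval₂ (ι.comp (algebraMap k K)) (fun l : Fin N => y l.succ) f := by
    rw [hyf, hev, heq, Polynomial.eval₂_mul, Polynomial.eval₂_pow, ← hR]
  -- the homomorphism to the dual numbers
  obtain ⟨θ, hθ1, hθ2⟩ := exists_theta Finset.univ D (RingHom.id K)
    (fun l => τ * (γ l).coeff 1)
  have hθk : ∀ c : k, θ (algebraMap k K c) =
      TrivSqZeroExt.inl ((RingHom.id K) (algebraMap k K c)) := by
    intro c
    apply TrivSqZeroExt.ext
    · rw [hθ1, TrivSqZeroExt.fst_inl]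
    · rw [hθ2, TrivSqZeroExt.snd_inl]
      refine Finset.sum_eq_zero fun l _ => ?_
      rw [Derivation.map_algebraMap, map_zero, mul_zero]
  have hθx : ∀ l : Fin N, ψ (y l.succ) = θ (ξ l.succ) := by
    intro l
    rw [hys, Polynomial.hom_eval₂, hψh, eval_inr, hγ0, RingHom.comp_apply, RingHom.comp_apply,
      hιψ, hιψ]
    apply TrivSqZeroExt.ext
    · rw [hθ1]
      simp
    · rw [hθ2, Finset.sum_eq_single l]
      · rw [hD, if_pos rfl, map_one, mul_one]
        simp only [TrivSqZeroExt.snd_add, TrivSqZeroExt.snd_inl, DualNumber.snd_mul,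
          TrivSqZeroExt.fst_inl, TrivSqZeroExt.fst_inr, RingHom.id_apply,
          TrivSqZeroExt.snd_inr, add_zero, zero_add, mul_zero]
        ring
      · intro m _ hm
        rw [hD, if_neg (Ne.symm hm), map_zero, mul_zero]
      · intro hl
        exact absurd (Finset.mem_univ l) hl
  have hfst : (ψ (y 0)).fst = w := by
    rw [hy0, map_mul, TrivSqZeroExt.fst_mul, hR, Polynomial.hom_eval₂, hψh, eval_inr, hr0]
    simp only [map_add, map_mul, hψh, hιψ, map_one,
      TrivSqZeroExt.fst_add, TrivSqZeroExt.fst_mul, TrivSqZeroExt.fst_one,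
      TrivSqZeroExt.fst_inr, mul_zero, add_zero, one_mul, TrivSqZeroExt.fst_inl,
      RingHom.id_apply]
  have hθw : ψ (y 0) = θ (ξ 0) := by
    rw [← hw]
    apply sq_dual
    · rw [← map_pow, ← map_pow, hyf', hwF, hF]
      have h1 : ∀ P : MvPolynomial (Fin N) k,
          ψ (eval₂ (ι.comp (algebraMap k K)) (fun l : Fin N => y l.succ) P) =
            θ (aeval x P) := by
        intro P
        induction P using MvPolynomial.induction_on with
        | C c =>
          rw [eval₂_C, aeval_C, RingHom.comp_apply, hιψ, hθk]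
        | add p q hp hq => rw [eval₂_add, map_add, hp, hq, map_add, map_add]
        | mul_X p m hp =>
          rw [eval₂_mul, map_mul, hp, eval₂_X, hθx, map_mul, aeval_X, map_mul, hx]
      exact h1 f
    · rw [hθ1, hfst]
      rfl
    · rw [hfst]
      exact hw0
  have hθξ : ∀ m, ψ (y m) = θ (ξ m) := fun m => by
    refine Fin.cases hθw (fun l => hθx l) m
  have hmain := kill_gen hξ.gen ι φ hφ hιφ (RingHom.id K) ψ hιψ θ hθ1 hθk (y := y) (fun P hP => by
    obtain ⟨q, rfl⟩ := (hξ.zero_iff P).mp hP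
    have h1 : aeval (fun m => φ (y m)) (cover f) = 0 := by
      rw [aeval_cover, ← map_pow, hyf']
      have h2 : ∀ P : MvPolynomial (Fin N) k,
          φ (eval₂ (ι.comp (algebraMap k K)) (fun l : Fin N => y l.succ) P) =
            aeval (fun l : Fin N => φ (y l.succ)) P := by
        intro P
        induction P using MvPolynomial.induction_on with
        | C c =>
          rw [eval₂_C, aeval_C, RingHom.comp_apply, hιφ]
          exact (IsScalarTower.algebraMap_apply k K (Rt 1 K) c).symm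
        | add p q hp hq => rw [eval₂_add, map_add, hp, hq, map_add]
        | mul_X p m hp =>
          rw [eval₂_mul, map_mul, hp, eval₂_X, map_mul, aeval_X]
      rw [h2, sub_self]
    rw [map_mul, h1, zero_mul]) hθξ ha
  rw [hθ2] at hmain
  simp only [mul_assoc, RingHom.id_apply] at hmain
  rw [← Finset.mul_sum] at hmain
  exact (mul_eq_zero.mp hmain).resolve_left hτ0

end Kill

end Pool.Agent.Helper52K9.DL
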