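import Pool.Agent.Helper52K9.DL.Model

/-! General double covers of products of projective spaces and quadrics: the moving part. -/

set_option autoImplicit false

namespace Pool.Agent.Helper52K9.DL

open MvPolynomial Pool.Agent.R867.Mov Pool.Agent.R867.J Pool.Agent.R867.H Pool.Agent.R867.D
open Pool.Agent.Helper93K9.DC

universe u v w z

section

variable {N r : ℕ} {k : Type u} [Field k] {β : Fin N → Fin r} {d : Fin r → ℕ}
  {q : Fin r → MvPolynomial (Fin N) k}

/-- the coordinates and the quadratic forms -/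
noncomputable def PP (q : Fin r → MvPolynomial (Fin N) k) : Fin (N + r) → MvPolynomial (Fin N) k :=
  Fin.append X q

/-- the blocks of the coordinates and the quadratic forms -/
def bb (β : Fin N → Fin r) : Fin (N + r) → Fin r := Fin.append β id

theorem PP_left (l : Fin N) : PP q (Fin.castAdd r l) = X l := Fin.append_left _ _ _

theorem PP_right (j : Fin r) : PP q (Fin.natAdd N j) = q j := Fin.append_right _ _ _

theorem bb_left (l : Fin N) : bb β (Fin.castAdd r l) = β l := Fin.append_left _ _ _

theorem bb_right (j : Fin r) : bb β (Fin.natAdd N j) = j := Fin.append_right _ _ _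

/-- the quadratic forms are zero or nondegenerate of rank at least three on their block -/
def IsProd (β : Fin N → Fin r) (q : Fin r → MvPolynomial (Fin N) k) : Prop :=
  ∀ j, q j = 0 ∨ ∃ (a b : Fin N) (c : Fin N → k), IsQ β j a b c (q j) ∧
    ∃ l, β l = j ∧ l ≠ a ∧ l ≠ b

theorem sum_bb {e : Fin (N + r) →₀ ℕ} (he : e ∈ expo (bb β) d) (j : Fin r) :
    ∑ m, e m * (if bb β m = j then 1 else 0) ≤ d j := by
  have h1 := mem_expo.mp he j
  rw [Finset.sum_filter] at h1
  refine le_trans (le_of_eq ?_) h1
  refine Finset.sum_congr rfl fun m _ => ?_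
  split_ifs <;> simp

variable {j : Fin r} {a b l : Fin N} {c : Fin N → k}

/-- the degree along the isotropic lines -/
theorem tw_deg (hprod : IsProd β q) (h : IsQ β j a b c (q j)) (hl : β l = j) (hla : l ≠ a)
    (hlb : l ≠ b) {R : Type v} [CommRing R] [Algebra k R] (x : Fin N → R)
    {G : MvPolynomial (Fin (N + r)) k} (hG : G.support ⊆ expo (bb β) d) :
    (tw x (fun m => (vq a b l c m).map (algebraMap k R)) (aeval (PP q) G)).natDegree ≤ d j := by
  have h1 : tw x (fun m => (vq a b l c m).map (algebraMap k R)) (aeval (PP q) G) =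
      aeval (fun m => tw (B := k) x (fun m => (vq a b l c m).map (algebraMap k R)) (PP q m)) G :=
    comp_aeval_apply _ _ _
  rw [h1]
  refine natDegree_aeval_le (w := fun m => if bb β m = j then 1 else 0) (fun m => ?_)
    (fun e he => sum_bb (hG he) j)
  refine Fin.addCases (fun m => ?_) (fun i => ?_) m
  · rw [PP_left, bb_left, tw_X]
    split_ifs with h2
    · rw [add_comm, mul_comm]
      exact Polynomial.natDegree_linear_le
    · rw [vq_other h hl h2, Polynomial.map_zero, map_zero, mul_zero, add_zero,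
        Polynomial.natDegree_C]
  · rw [PP_right, bb_right]
    split_ifs with h2
    · subst h2
      exact tw_q h hl hla hlb x
    · rcases hprod i with h3 | ⟨a', b', c', h3, -⟩
      · rw [h3, map_zero, Polynomial.natDegree_zero]
      · refine tw_q' h3 x fun m hm => ?_
        rw [vq_other h hl (by rw [hm]; exact h2), Polynomial.map_zero]

/-- the restriction to the isotropic lines through the origin -/
noncomputable def tw0 (a b l : Fin N) (c : Fin N → k) (q : Fin r → MvPolynomial (Fin N) k)
    {R : Type v} [CommRing R] [Algebra k R] (G : MvPolynomial (Fin (N + r)) R) :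
    Polynomial (Polynomial R) :=
  tw (0 : Fin N → R) (fun m => (vq a b l c m).map (algebraMap k R)) (sub (PP q) G)

theorem tw0_map {R : Type v} [CommRing R] [Algebra k R] {R' : Type w} [CommRing R'] [Algebra k R']
    (φ : R →ₐ[k] R') (G : MvPolynomial (Fin (N + r)) R) :
    (tw0 a b l c q G).map (Polynomial.mapRingHom φ.toRingHom) =
      tw0 a b l c q (MvPolynomial.map φ.toRingHom G) := by
  have hx : (fun l => φ.toRingHom ((0 : Fin N → R) l)) = (0 : Fin N → R') := by
    funext m
    exact map_zero _
  have hv : (fun m => ((vq a b l c m).map (algebraMap k R)).map φ.toRingHom) =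
      fun m => (vq a b l c m).map (algebraMap k R') := by
    funext m
    rw [Polynomial.map_map]
    congr 1
    exact RingHom.ext fun z => φ.commutes z
  unfold tw0
  rw [← sub_map, ← hx, ← hv]
  exact tw_map φ.toRingHom φ.toRingHom (fun _ => rfl) _ _ _

theorem tw0_at {G : MvPolynomial (Fin N) k} :
    tw0 a b l c q (rename (Fin.castAdd r) G) =
      aeval (fun m => Polynomial.X * Polynomial.C (vq a b l c m)) G := by
  unfold tw0
  rw [sub_self, aeval_rename]
  have h1 : (PP q ∘ Fin.castAdd r) = X := by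
    funext m
    exact PP_left m
  rw [h1, aeval_X_left_apply]
  unfold tw
  congr 2
  funext m
  simp

/-- the example for blocks of degree at least three -/
theorem tw0_ex3 [CharZero k] (h : IsQ β j a b c (q j)) :
    ndP (tw0 a b l c q (rename (Fin.castAdd r)
      (1 + X a ^ 2 + X a ^ 3 + X b ^ 3 : MvPolynomial (Fin N) k))) ≠ 0 := by
  have hva : vq a b l c a = 1 := by
    unfold vq
    rw [if_pos rfl]
  have hvb : vq a b l c b = - (Polynomial.C (c l) * Polynomial.X ^ 2) := by
    unfold vq
    rw [if_neg h.hab.symm, if_pos rfl]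
  obtain ⟨p, hp⟩ : ∃ p, p = tw0 a b l c q (rename (Fin.castAdd r)
      (1 + X a ^ 2 + X a ^ 3 + X b ^ 3 : MvPolynomial (Fin N) k)) := ⟨_, rfl⟩
  have hp1 : p = 1 + Polynomial.X ^ 2 + Polynomial.C (1 - Polynomial.C (c l ^ 3) *
      Polynomial.X ^ 6) * Polynomial.X ^ 3 := by
    rw [hp, tw0_at]
    simp only [map_add, map_one, map_pow, aeval_X, hva, hvb, map_sub, map_mul, map_neg]
    ring
  have cm : ∀ m, p.coeff m = (if m = 0 then 1 else 0) + (if m = 2 then 1 else 0) +
      (1 - Polynomial.C (c l ^ 3) * Polynomial.X ^ 6) * (if m = 3 then 1 else 0) := by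
    intro m
    rw [hp1, Polynomial.coeff_add, Polynomial.coeff_add, Polynomial.coeff_C_mul,
      Polynomial.coeff_one, Polynomial.coeff_X_pow, Polynomial.coeff_X_pow]
  have c0 : p.coeff 0 = 1 := by
    rw [cm]
    norm_num
  have c1 : p.coeff 1 = 0 := by
    rw [cm]
    norm_num
  have c2 : p.coeff 2 = 1 := by
    rw [cm]
    norm_num
  have c3 : p.coeff 3 = 1 - Polynomial.C (c l ^ 3) * Polynomial.X ^ 6 := by
    rw [cm]
    norm_num
  have c4 : p.coeff 4 = 0 := by
    rw [cm]
    norm_num
  have hc : cubP p = 64 * (1 - Polynomial.C (c l ^ 3) * Polynomial.X ^ 6) := by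
    unfold cubP
    rw [c0, c1, c2, c3]
    ring
  have hd : denP p = 16 := by
    unfold denP
    rw [c0, c1, c2, c4]
    norm_num
  rw [← hp]
  have hdeg : ∀ m, (p.coeff m).natDegree ≤ 2 * m := by
    rw [hp]
    unfold tw0
    refine tw_coeff_natDegree _ (fun m => ?_) _
    exact Polynomial.natDegree_map_le.trans (vq_natDegree a b l c m)
  have hcl : c l ^ 3 ≠ 0 := pow_ne_zero _ (h.hc l)
  rw [ndP_iff hdeg, hc, hd]
  have h64 : (64 : Polynomial k) = Polynomial.C 64 := (map_ofNat Polynomial.C 64).symm
  refine ⟨?_, ?_, ?_⟩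
  · rw [h64, Polynomial.coeff_C_mul, Polynomial.coeff_sub, Polynomial.coeff_C_mul,
      Polynomial.coeff_X_pow, if_pos rfl, Polynomial.coeff_one, if_neg (by norm_num), mul_one,
      zero_sub]
    exact mul_ne_zero (by norm_num) (neg_ne_zero.mpr hcl)
  · rw [h64, Polynomial.derivative_C_mul, Polynomial.derivative_sub, Polynomial.derivative_C_mul,
      Polynomial.derivative_X_pow, Polynomial.derivative_one, zero_sub]
    refine ⟨Polynomial.C (1 / 64), - Polynomial.C (1 / 384) * Polynomial.X, ?_⟩
    have e1 : Polynomial.C (1 / 64 : k) * Polynomial.C 64 = 1 := by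
      rw [← Polynomial.C_mul]
      norm_num
    have e2 : Polynomial.C (1 / 384 : k) * (Polynomial.C 64 * Polynomial.C ((6 : ℕ) : k)) = 1 := by
      rw [← Polynomial.C_mul, ← Polynomial.C_mul]
      norm_num
    linear_combination (1 - Polynomial.C (c l ^ 3) * Polynomial.X ^ 6) * e1 +
      (Polynomial.C (c l ^ 3) * Polynomial.X ^ 6) * e2
  · refine ⟨0, Polynomial.C (1 / 16), ?_⟩
    rw [zero_mul, zero_add, show (16 : Polynomial k) = Polynomial.C 16 from
      (map_ofNat Polynomial.C 16).symm, ← Polynomial.C_mul]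
    norm_num

/-- the example for blocks of degree at most two -/
theorem tw0_ex1 :
    (denP (tw0 a b l c q (rename (Fin.castAdd r)
      (1 + X a : MvPolynomial (Fin N) k)))).eval 0 ≠ 0 := by
  have hva : vq a b l c a = 1 := by
    unfold vq
    rw [if_pos rfl]
  obtain ⟨p, hp⟩ : ∃ p, p = tw0 a b l c q (rename (Fin.castAdd r)
      (1 + X a : MvPolynomial (Fin N) k)) := ⟨_, rfl⟩
  have hp1 : p = 1 + Polynomial.X := by
    rw [hp, tw0_at]
    simp only [map_add, map_one, aeval_X, hva, mul_one]
  have cm : ∀ m, p.coeff m = (if m = 0 then 1 else 0) + (if 1 = m then 1 else 0) := by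
    intro m
    rw [hp1, Polynomial.coeff_add, Polynomial.coeff_one, Polynomial.coeff_X]
  have c0 : p.coeff 0 = 1 := by
    rw [cm]
    norm_num
  have c1 : p.coeff 1 = 1 := by
    rw [cm]
    norm_num
  have c2 : p.coeff 2 = 0 := by
    rw [cm]
    norm_num
  have c4 : p.coeff 4 = 0 := by
    rw [cm]
    norm_num
  rw [← hp]
  unfold denP
  rw [c0, c1, c2, c4]
  norm_num

end

section Main

variable {N r : ℕ} {k : Type u} [Field k] {β : Fin N → Fin r} {d : Fin r → ℕ}
  {q : Fin r → MvPolynomial (Fin N) k} {K : Type u} [Field K] [Algebra k K]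
  {ξ : Fin (N + 1) → K} {j : Fin r} {a b l : Fin N} {c : Fin N → k}

/-- from the origin to the generic point -/
theorem tw_generic {x : Fin N → K} (hx : AlgebraicIndependent k x)
    {f : MvPolynomial (Fin N) k} {v : Fin N → Polynomial k} :
    (ndP (tw (0 : Fin N → k) v f) ≠ 0 →
      ndP (tw x (fun m => (v m).map (algebraMap k K)) f) ≠ 0) ∧
    (denP (tw (0 : Fin N → k) v f) ≠ 0 →
      denP (tw x (fun m => (v m).map (algebraMap k K)) f) ≠ 0) := by
  obtain ⟨p, hp⟩ : ∃ p : Polynomial (Polynomial (MvPolynomial (Fin N) k)),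
    p = tw X (fun m => (v m).map C) f := ⟨_, rfl⟩
  have h0 : p.map (Polynomial.mapRingHom
      (aeval (fun _ => 0) : MvPolynomial (Fin N) k →ₐ[k] k).toRingHom) =
      tw (0 : Fin N → k) v f := by
    rw [hp, tw_map (RingHom.id k) _ (fun b => ?_), MvPolynomial.map_id]
    · congr 2
      · funext m
        exact aeval_X _ _
      · funext m
        rw [Polynomial.map_map]
        have h1 : (aeval (fun _ => 0) : MvPolynomial (Fin N) k →ₐ[k] k).toRingHom.comp C =
            RingHom.id k := RingHom.ext fun z => aeval_C _ _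
        rw [h1, Polynomial.map_id]
    · exact aeval_C _ _
  have h1 : p.map (Polynomial.mapRingHom
      (aeval x : MvPolynomial (Fin N) k →ₐ[k] K).toRingHom) =
      tw x (fun m => (v m).map (algebraMap k K)) f := by
    rw [hp, tw_map (RingHom.id k) _ (fun b => ?_), MvPolynomial.map_id]
    · congr 2
      · funext m
        exact aeval_X _ _
      · funext m
        rw [Polynomial.map_map]
        congr 1
        exact RingHom.ext fun z => aeval_C _ _
    · exact aeval_C _ _
  constructor
  · intro h
    rw [← h0, ndP_map] at h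
    rw [← h1, ndP_map]
    intro h2
    apply h
    have h3 : ndP p = 0 := hx (h2.trans (map_zero _).symm)
    rw [h3, map_zero]
  · intro h
    rw [← h0, denP_map] at h
    rw [← h1, denP_map]
    intro h2
    apply h
    have h3 : denP p = 0 := by
      apply Polynomial.map_injective _ hx
      rw [Polynomial.map_zero]
      exact h2
    rw [h3, map_zero]

/-- the immovable functions do not depend on the variables of the quadrics -/
theorem kill_quadric [CharZero k] (hprod : IsProd β q) (h : IsQ β j a b c (q j)) (hl : β l = j)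
    (hla : l ≠ a) (hlb : l ≠ b) {G : MvPolynomial (Fin (N + r)) k}
    (hG : G.support ⊆ expo (bb β) d) {f : MvPolynomial (Fin N) k} (hfG : f = aeval (PP q) G)
    (hf : Irreducible f) (hξ : GP (cover f) ξ) {D : Fin N → Derivation k K K}
    (hD : ∀ l m : Fin N, D l (ξ m.succ) = if m = l then 1 else 0)
    (hnd : d j ≤ 4 ∧ ndP (tw0 a b l c q G) ≠ 0 ∨ d j ≤ 2 ∧ (denP (tw0 a b l c q G)).eval 0 ≠ 0)
    {a₀ : K} (ha : Imm k a₀) : D a a₀ = 0 ∧ D b a₀ = 0 ∧ D l a₀ = 0 := by
  have hind := ind_cover hξ hf
  have hF0 : aeval (fun l : Fin N => ξ l.succ) f ≠ 0 := fun h0 =>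
    hf.ne_zero (hind (h0.trans (map_zero _).symm))
  have htw : tw0 a b l c q G = tw (0 : Fin N → k) (vq a b l c) f := by
    unfold tw0
    rw [sub_self, ← hfG]
    congr 2
    funext m
    exact Polynomial.map_id
  rw [htw] at hnd
  have hdeg := tw_deg hprod h hl hla hlb (fun l : Fin N => ξ l.succ) hG
  rw [← hfG] at hdeg
  obtain ⟨hg1, hg2⟩ := tw_generic hind (f := f) (v := vq a b l c)
  have hkill := kill_tw hξ hF0 (v := fun m => (vq a b l c m).map (algebraMap k K))
    (fun m => Polynomial.natDegree_map_le.trans (vq_natDegree a b l c m)) hD (by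
      rcases hnd with ⟨h1, h2⟩ | ⟨h1, h2⟩
      · exact Or.inl ⟨hdeg.trans h1, hg1 h2⟩
      · refine Or.inr ⟨hdeg.trans h1, hg2 fun h0 => h2 ?_⟩
        rw [h0, Polynomial.eval_zero]) ha
  have hva : vq a b l c a = 1 := by
    unfold vq
    rw [if_pos rfl]
  have hvb : vq a b l c b = - (Polynomial.C (c l) * Polynomial.X ^ 2) := by
    unfold vq
    rw [if_neg h.hab.symm, if_pos rfl]
  have hvl : vq a b l c l = Polynomial.X := by
    unfold vq
    rw [if_neg hla, if_neg hlb, if_pos rfl]
  have hsum : ∑ m, (vq a b l c m).map (algebraMap k K) * Polynomial.C (D m a₀) =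
      Polynomial.C (D a a₀) + (- (Polynomial.C (algebraMap k K (c l)) * Polynomial.X ^ 2) *
        Polynomial.C (D b a₀) + Polynomial.X * Polynomial.C (D l a₀)) := by
    rw [← Finset.add_sum_erase _ _ (Finset.mem_univ a), hva,
      ← Finset.add_sum_erase _ _ (Finset.mem_erase.mpr ⟨h.hab.symm, Finset.mem_univ b⟩), hvb,
      ← Finset.add_sum_erase _ _ (Finset.mem_erase.mpr ⟨hlb, Finset.mem_erase.mpr
        ⟨hla, Finset.mem_univ l⟩⟩), hvl]
    rw [Finset.sum_eq_zero fun m hm => ?_, Polynomial.map_one, one_mul, Polynomial.map_neg,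
      Polynomial.map_mul, Polynomial.map_C, Polynomial.map_pow, Polynomial.map_X, add_zero]
    obtain ⟨h1, h2⟩ := Finset.mem_erase.mp hm
    obtain ⟨h3, h4⟩ := Finset.mem_erase.mp h2
    obtain ⟨h5, -⟩ := Finset.mem_erase.mp h4
    unfold vq
    rw [if_neg h5, if_neg h3, if_neg h1, Polynomial.map_zero, zero_mul]
  rw [hsum] at hkill
  have hform : Polynomial.C (D a a₀) + (- (Polynomial.C (algebraMap k K (c l)) *
      Polynomial.X ^ 2) * Polynomial.C (D b a₀) + Polynomial.X * Polynomial.C (D l a₀)) =
      Polynomial.C (D a a₀) + (Polynomial.C (- (algebraMap k K (c l) * D b a₀)) *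
        Polynomial.X ^ 2 + Polynomial.C (D l a₀) * Polynomial.X) := by
    rw [map_neg, map_mul]
    ring
  rw [hform] at hkill
  have kk : ∀ n, (if n = 0 then D a a₀ else 0) + ((if n = 2 then
      - (algebraMap k K (c l) * D b a₀) else 0) + (if n = 1 then D l a₀ else 0)) = 0 := by
    intro n
    have h1 := congrArg (fun z => Polynomial.coeff z n) hkill
    simp only [Polynomial.coeff_add, Polynomial.coeff_C, Polynomial.coeff_C_mul_X_pow,
      Polynomial.coeff_C_mul_X, Polynomial.coeff_zero] at h1
    exact h1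
  have k0 := kk 0
  have k1 := kk 1
  have k2 := kk 2
  norm_num at k0 k1 k2
  exact ⟨k0, k2.resolve_left (h.hc l), k1⟩

end Main

end Pool.Agent.Helper52K9.DL
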