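import Pool.Agent.Helper52K9.DL.Gen1

/-! General double covers of products of projective spaces and quadrics: irreducibility. -/

set_option autoImplicit false

namespace Pool.Agent.Helper52K9.DL

open MvPolynomial Pool.Agent.R867.H

universe u v w z

section Surj

variable {k : Type u} [Field k] {M : ℕ}

theorem surj {S : Finset (Fin M →₀ ℕ)} {E : Finset (Fin 2 →₀ ℕ)}
    (ρ : MvPolynomial (Fin M) k →ₐ[k] MvPolynomial (Fin 2) k)
    (h : ∀ e ∈ E, ∃ m ∈ S, ∃ γ : k, γ ≠ 0 ∧ ρ (monomial m 1) = monomial e γ)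
    {g : MvPolynomial (Fin 2) k} (hg : g.support ⊆ E) :
    ∃ G : MvPolynomial (Fin M) k, G.support ⊆ S ∧ ρ G = g := by
  classical
  have key : ∀ e : (Fin 2 →₀ ℕ), ∃ G : MvPolynomial (Fin M) k,
      e ∈ g.support → G.support ⊆ S ∧ ρ G = monomial e (coeff e g) := by
    intro e
    by_cases he : e ∈ g.support
    · obtain ⟨m, hm, γ, hγ, hρ⟩ := h e (hg he)
      refine ⟨C (coeff e g * γ⁻¹) * monomial m 1, fun _ => ⟨?_, ?_⟩⟩
      · rw [C_mul_monomial]
        exact support_monomial_subset.trans (Finset.singleton_subset_iff.mpr hm)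
      · rw [map_mul, hρ, ← algebraMap_eq, AlgHom.commutes, algebraMap_eq, C_mul_monomial,
          mul_assoc, inv_mul_cancel₀ hγ, mul_one]
    · exact ⟨0, fun h1 => absurd h1 he⟩
  choose G hG using key
  refine ⟨∑ e ∈ g.support, G e, ?_, ?_⟩
  · refine (support_sum).trans ?_
    intro m hm
    obtain ⟨e, he, hme⟩ := Finset.mem_biUnion.mp hm
    exact (hG e he).1 hme
  · rw [map_sum, Finset.sum_congr rfl fun e he => (hG e he).2]
    exact g.support_sum_monomial_coeff

/-- evaluation of a condition with rational coefficients -/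
noncomputable def ev2 (k : Type u) [Field k] [CharZero k] {E : Finset (Fin 2 →₀ ℕ)}
    (Φ : MvPolynomial E ℚ) {R : Type v} [CommRing R] [Algebra k R] (g : MvPolynomial (Fin 2) R) :
    R :=
  aeval (fun m : E => coeff (m : Fin 2 →₀ ℕ) g) (MvPolynomial.map (algebraMap ℚ k) Φ)

theorem ev2_map [CharZero k] {E : Finset (Fin 2 →₀ ℕ)} (Φ : MvPolynomial E ℚ) {R : Type v}
    [CommRing R] [Algebra k R] {R' : Type w} [CommRing R'] [Algebra k R'] (φ : R →ₐ[k] R')
    (g : MvPolynomial (Fin 2) R) : φ (ev2 k Φ g) = ev2 k Φ (MvPolynomial.map φ.toRingHom g) := by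
  unfold ev2
  rw [← AlgHom.comp_apply, comp_aeval]
  congr 2

theorem ev2_sp [CharZero k] {E : Finset (Fin 2 →₀ ℕ)} (Φ : MvPolynomial E ℚ) {L : Type v}
    [Field L] [Algebra k L] [Algebra ℚ L] (g : MvPolynomial (Fin 2) L) :
    ev2 k Φ g = sp E g Φ := by
  unfold ev2 sp
  have h : ((aeval (fun m : E => coeff (m : Fin 2 →₀ ℕ) g) : MvPolynomial E k →ₐ[k] L).toRingHom.comp
      (MvPolynomial.map (algebraMap ℚ k))) =
      (aeval (fun m : E => coeff (m : Fin 2 →₀ ℕ) g) : MvPolynomial E ℚ →ₐ[ℚ] L).toRingHom := by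
    apply MvPolynomial.ringHom_ext
    · intro c
      rw [RingHom.comp_apply, map_C]
      change aeval _ (C _) = aeval _ (C c)
      rw [aeval_C, aeval_C]
      have h2 : (algebraMap k L).comp (algebraMap ℚ k) = algebraMap ℚ L := Subsingleton.elim _ _
      rw [← h2]
      rfl
    · intro m
      rw [RingHom.comp_apply, map_X]
      change aeval _ (X _) = aeval _ (X m)
      rw [aeval_X, aeval_X]
  exact congrArg (fun φ => φ Φ) h

theorem exists_g [CharZero k] {E : Finset (Fin 2 →₀ ℕ)} {Φ : MvPolynomial E ℚ} (hΦ : Φ ≠ 0) :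
    ∃ g : MvPolynomial (Fin 2) k, g.support ⊆ E ∧ ev2 k Φ g ≠ 0 := by
  classical
  have h1 : MvPolynomial.map (algebraMap ℚ k) Φ ≠ 0 := by
    intro h0
    exact hΦ (MvPolynomial.map_injective _ (algebraMap ℚ k).injective (h0.trans (map_zero _).symm))
  obtain ⟨p, hp⟩ : ∃ p : E → k, eval p (MvPolynomial.map (algebraMap ℚ k) Φ) ≠ 0 := by
    by_contra hcon
    push Not at hcon
    apply h1
    apply MvPolynomial.funext
    intro p
    rw [hcon p, map_zero]
  refine ⟨∑ m : E, monomial (m : Fin 2 →₀ ℕ) (p m), ?_, ?_⟩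
  · refine (support_sum).trans ?_
    intro m hm
    obtain ⟨e, -, hme⟩ := Finset.mem_biUnion.mp hm
    have := support_monomial_subset hme
    rw [Finset.mem_singleton] at this
    rw [this]
    exact e.2
  · have h2 : ∀ e : E, coeff (e : Fin 2 →₀ ℕ) (∑ m : E, monomial (m : Fin 2 →₀ ℕ) (p m)) =
        p e := by
      intro e
      rw [coeff_sum, Finset.sum_eq_single e]
      · rw [coeff_monomial, if_pos rfl]
      · intro m _ hm
        rw [coeff_monomial, if_neg fun h => hm (Subtype.ext h)]
      · intro h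
        exact absurd (Finset.mem_univ e) h
    unfold ev2
    rw [funext h2]
    exact hp

end Surj

theorem mon2 {k : Type u} [CommRing k] (e : Fin 2 →₀ ℕ) (z : k) :
    monomial e z = C z * (X 0 ^ e 0 * X 1 ^ e 1) := by
  rw [monomial_eq, Finsupp.prod_fintype _ _ (fun _ => pow_zero _), Fin.prod_univ_two]

section Test

variable {N r : ℕ} {k : Type u} [Field k] {β : Fin N → Fin r} {d : Fin r → ℕ}
  {q : Fin r → MvPolynomial (Fin N) k}

theorem res2_map (a l : Fin N) {R : Type v} [CommRing R] {R' : Type w} [CommRing R']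
    (φ : R →+* R') (F : MvPolynomial (Fin N) R) :
    MvPolynomial.map φ (res2 a l F) = res2 a l (MvPolynomial.map φ F) := by
  unfold res2
  induction F using MvPolynomial.induction_on with
  | C c =>
    rw [aeval_C, map_C, aeval_C]
    change MvPolynomial.map φ (C c) = C _
    rw [map_C]
  | add p q hp hq => rw [map_add, map_add, hp, hq, map_add, map_add]
  | mul_X p m hp =>
    rw [map_mul, map_mul, hp, map_mul, map_mul, map_X, aeval_X, aeval_X]
    congr 1
    split_ifs
    · rw [map_X]
    · rw [map_X]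
    · rw [map_zero]

/-- the condition which implies irreducibility with respect to two variables -/
theorem test_pair [CharZero k] {a l : Fin N} {n : Fin 2 → ℕ} (hn : ∀ i, 1 ≤ n i)
    (hsurj : ∀ e ∈ expo (id : Fin 2 → Fin 2) n, ∃ m ∈ expo (bb β) d, ∃ γ : k, γ ≠ 0 ∧
      res2 a l (aeval (PP q) (monomial m (1 : k))) = monomial e γ) :
    ∃ Ψ : MvPolynomial (expo (bb β) d) k, Ψ ≠ 0 ∧ ∀ {L : Type u} [Field L] [CharZero L]
      [Algebra k L] (G : MvPolynomial (Fin (N + r)) L), G.support ⊆ expo (bb β) d →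
        aeval (fun m : expo (bb β) d => coeff (m : Fin (N + r) →₀ ℕ) G) Ψ ≠ 0 → a ≠ l →
        degreeOf a (sub (PP q) G) ≤ n 0 → degreeOf l (sub (PP q) G) ≤ n 1 →
        ∀ g h, sub (PP q) G = g * h →
          (degreeOf a g = 0 ∧ degreeOf l g = 0) ∨ (degreeOf a h = 0 ∧ degreeOf l h = 0) := by
  obtain ⟨Φ, hΦ0, hΦ⟩ := gen_irr.{u} (N := 2) (ι := Fin 2) (β := id) (d := n) le_rfl
    Function.surjective_id hn
  obtain ⟨g, hg, hgne⟩ := exists_g (k := k) hΦ0
  obtain ⟨G₀, hG₀, hρ⟩ := surj ((res2 a l).comp (aeval (PP q))) hsurj hg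
  obtain ⟨Ψ, hΨ, hmain⟩ := exists_Phi (k := k) (S := expo (bb β) d)
    (fun (R : Type u) [CommRing R] [Algebra k R] G => ev2 k Φ (res2 a l (sub (PP q) G)))
    (fun {R} _ _ {R'} _ _ φ G => by
      rw [ev2_map, res2_map, sub_map]) hG₀ (by
      rw [sub_self]
      change ev2 k Φ (((res2 a l).comp (aeval (PP q))) G₀) ≠ 0
      rw [hρ]
      exact hgne)
  refine ⟨Ψ, hΨ, ?_⟩
  intro L _ _ _ G hG hne hal ha hl g h hgh
  rw [hmain G hG, ev2_sp] at hne
  exact pair hal ha hl hΦ hne hgh

variable {j : Fin r} {a b : Fin N} {c : Fin N → k}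

/-- degrees in the variables -/
theorem deg_le_of {L : Type v} [Field L] [Algebra k L] {i : Fin r} {l : Fin N} {w : ℕ}
    (hl : ∀ m, degreeOf l (PP q m) ≤ if bb β m = i then w else 0)
    {G : MvPolynomial (Fin (N + r)) L} (hG : G.support ⊆ expo (bb β) d) :
    degreeOf l (sub (PP q) G) ≤ w * d i := by
  unfold sub
  refine degreeOf_aeval_le (w := fun m => if bb β m = i then w else 0) (fun m => ?_)
    (fun e he => ?_)
  · refine le_trans ?_ (hl m)
    rw [degreeOf_le_iff]
    intro e he
    exact monomial_le_degreeOf l (MvPolynomial.support_map_subset _ _ he)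
  · have h1 := sum_bb (hG he) i
    have h2 : ∑ m, e m * (if bb β m = i then w else 0) =
        w * ∑ m, e m * (if bb β m = i then 1 else 0) := by
      rw [Finset.mul_sum]
      refine Finset.sum_congr rfl fun m _ => ?_
      split_ifs
      · ring
      · ring
    rw [h2]
    exact Nat.mul_le_mul_left _ h1

theorem deg_PP_one {i : Fin r} {l : Fin N} (hprod : IsProd β q) (hl : β l = i)
    (hq : degreeOf l (q i) ≤ 1) (m : Fin (N + r)) :
    degreeOf l (PP q m) ≤ if bb β m = i then 1 else 0 := by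
  refine Fin.addCases (fun m => ?_) (fun i' => ?_) m
  · rw [PP_left, bb_left, degreeOf_X]
    split_ifs with h1 h2 h3
    · exact le_rfl
    · exact absurd (h1 ▸ hl) h2
    · omega
    · exact le_rfl
  · rw [PP_right, bb_right]
    split_ifs with h1
    · subst h1
      exact hq
    · rcases hprod i' with h3 | ⟨a', b', c', h3, -⟩
      · rw [h3, degreeOf_zero]
      · rw [h3.degreeOf_other (by rw [hl]; exact Ne.symm h1)]

theorem deg_PP_two {i : Fin r} {l : Fin N} (hprod : IsProd β q) (hl : β l = i)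
    (m : Fin (N + r)) : degreeOf l (PP q m) ≤ if bb β m = i then 2 else 0 := by
  refine Fin.addCases (fun m => ?_) (fun i' => ?_) m
  · rw [PP_left, bb_left, degreeOf_X]
    split_ifs with h1 h2 h3
    · omega
    · exact absurd (h1 ▸ hl) h2
    · omega
    · exact le_rfl
  · rw [PP_right, bb_right]
    rcases hprod i' with h3 | ⟨a', b', c', h3, -⟩
    · rw [h3, degreeOf_zero]
      exact Nat.zero_le _
    · split_ifs with h1
      · exact h3.degreeOf_le l
      · rw [h3.degreeOf_other (by rw [hl]; exact Ne.symm h1)]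

/-- the two special variables of a quadric -/
theorem surj_ab (h : IsQ β j a b c (q j)) {n : Fin 2 → ℕ} (hn : ∀ i, n i = d j) :
    ∀ e ∈ expo (id : Fin 2 → Fin 2) n, ∃ m ∈ expo (bb β) d, ∃ γ : k, γ ≠ 0 ∧
      res2 a b (aeval (PP q) (monomial m (1 : k))) = monomial e γ := by
  intro e he
  have he' : ∀ i, e i ≤ d j := by
    intro i
    have h1 := mem_expo.mp he i
    have h2 : (Finset.univ.filter fun l : Fin 2 => id l = i) = {i} := by
      ext l
      simp
    rw [h2, Finset.sum_singleton, hn] at h1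
    exact h1
  obtain ⟨s, hs⟩ : ∃ s, s = min (e 0) (e 1) := ⟨_, rfl⟩
  refine ⟨Finsupp.single (Fin.castAdd r a) (e 0 - s) + Finsupp.single (Fin.castAdd r b) (e 1 - s) +
    Finsupp.single (Fin.natAdd N j) s, ?_, 1, one_ne_zero, ?_⟩
  · rw [mem_expo]
    intro i
    have h0 := he' 0
    have h1 := he' 1
    simp only [Finsupp.add_apply, Finset.sum_add_distrib]
    rw [sum_single, sum_single, sum_single, bb_left, bb_left, bb_right, h.ha, h.hb]
    split_ifs with h2
    · subst h2
      omega
    · omega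
  · have hq : res2 a b (q j) = X 0 * X 1 := by
      unfold res2
      rw [h.ev, if_pos rfl, if_neg h.hab.symm, if_pos rfl, Finset.sum_eq_zero, add_zero]
      intro l hl
      obtain ⟨-, -, h1, h2⟩ := Finset.mem_filter.mp hl
      rw [if_neg h1, if_neg h2, zero_pow two_ne_zero, mul_zero]
    have hmon : (monomial (Finsupp.single (Fin.castAdd r a) (e 0 - s) +
        Finsupp.single (Fin.castAdd r b) (e 1 - s) + Finsupp.single (Fin.natAdd N j) s)) (1 : k) =
        X (Fin.castAdd r a) ^ (e 0 - s) * X (Fin.castAdd r b) ^ (e 1 - s) *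
          X (Fin.natAdd N j) ^ s := by
      rw [X_pow_eq_monomial, X_pow_eq_monomial, X_pow_eq_monomial, monomial_mul, monomial_mul]
      simp
    rw [hmon]
    simp only [map_mul, map_pow, aeval_X, PP_left, PP_right, hq]
    have hra : res2 a b (X a : MvPolynomial (Fin N) k) = X 0 := by
      unfold res2
      rw [aeval_X, if_pos rfl]
    have hrb : res2 a b (X b : MvPolynomial (Fin N) k) = X 1 := by
      unfold res2
      rw [aeval_X, if_neg h.hab.symm, if_pos rfl]
    rw [hra, hrb]
    rw [mon2, C_1, one_mul, mul_pow]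
    have e0 : e 0 = (e 0 - s) + s := by omega
    have e1 : e 1 = (e 1 - s) + s := by omega
    conv_rhs => rw [e0, e1, pow_add, pow_add]
    ring

/-- variables of other blocks, first case -/
theorem surj_one (h : IsQ β j a b c (q j)) {l : Fin N} (hl : β l ≠ j) {n : Fin 2 → ℕ}
    (hn0 : n 0 = d j) (hn1 : n 1 = d (β l)) :
    ∀ e ∈ expo (id : Fin 2 → Fin 2) n, ∃ m ∈ expo (bb β) d, ∃ γ : k, γ ≠ 0 ∧
      res2 a l (aeval (PP q) (monomial m (1 : k))) = monomial e γ := by
  intro e he
  have he' : ∀ i, e i ≤ n i := by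
    intro i
    have h1 := mem_expo.mp he i
    have h2 : (Finset.univ.filter fun l : Fin 2 => id l = i) = {i} := by
      ext l
      simp
    rw [h2, Finset.sum_singleton] at h1
    exact h1
  have h0 := he' 0
  have h1 := he' 1
  rw [hn0] at h0
  rw [hn1] at h1
  have hla : l ≠ a := by
    rintro rfl
    exact hl h.ha
  refine ⟨Finsupp.single (Fin.castAdd r a) (e 0) + Finsupp.single (Fin.castAdd r l) (e 1),
    ?_, 1, one_ne_zero, ?_⟩
  · rw [mem_expo]
    intro i
    simp only [Finsupp.add_apply, Finset.sum_add_distrib]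
    rw [sum_single, sum_single, bb_left, bb_left, h.ha]
    split_ifs with h2 h3 h4
    · exact absurd (h3.trans h2.symm) hl
    · rw [← h2]
      omega
    · rw [← h4]
      omega
    · omega
  · have hmon : (monomial (Finsupp.single (Fin.castAdd r a) (e 0) +
        Finsupp.single (Fin.castAdd r l) (e 1))) (1 : k) =
        X (Fin.castAdd r a) ^ (e 0) * X (Fin.castAdd r l) ^ (e 1) := by
      rw [X_pow_eq_monomial, X_pow_eq_monomial, monomial_mul, mul_one]
    rw [hmon]
    simp only [map_mul, map_pow, aeval_X, PP_left]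
    have hra : res2 a l (X a : MvPolynomial (Fin N) k) = X 0 := by
      unfold res2
      rw [aeval_X, if_pos rfl]
    have hrb : res2 a l (X l : MvPolynomial (Fin N) k) = X 1 := by
      unfold res2
      rw [aeval_X, if_neg hla, if_pos rfl]
    rw [hra, hrb]
    rw [mon2, C_1, one_mul]

/-- variables of other blocks, second case -/
theorem surj_two (h : IsQ β j a b c (q j)) {i : Fin r} {a' b' : Fin N} {c' : Fin N → k}
    (h' : IsQ β i a' b' c' (q i)) {l : Fin N} (hl : β l = i) (hij : i ≠ j) (hla : l ≠ a')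
    (hlb : l ≠ b') {n : Fin 2 → ℕ} (hn0 : n 0 = d j) (hn1 : n 1 = 2 * d i) :
    ∀ e ∈ expo (id : Fin 2 → Fin 2) n, ∃ m ∈ expo (bb β) d, ∃ γ : k, γ ≠ 0 ∧
      res2 a l (aeval (PP q) (monomial m (1 : k))) = monomial e γ := by
  intro e he
  have he' : ∀ i, e i ≤ n i := by
    intro i
    have h1 := mem_expo.mp he i
    have h2 : (Finset.univ.filter fun l : Fin 2 => id l = i) = {i} := by
      ext l
      simp
    rw [h2, Finset.sum_singleton] at h1
    exact h1
  have h0 := he' 0
  have h1 := he' 1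
  rw [hn0] at h0
  rw [hn1] at h1
  have hlj : β l ≠ j := by rw [hl]; exact hij
  have hla' : l ≠ a := by
    rintro rfl
    exact hlj h.ha
  refine ⟨Finsupp.single (Fin.castAdd r a) (e 0) + Finsupp.single (Fin.castAdd r l) (e 1 % 2) +
    Finsupp.single (Fin.natAdd N i) (e 1 / 2),
    ?_, c' l ^ (e 1 / 2), pow_ne_zero _ (h'.hc l), ?_⟩
  · rw [mem_expo]
    intro i'
    simp only [Finsupp.add_apply, Finset.sum_add_distrib]
    rw [sum_single, sum_single, sum_single, bb_left, bb_left, bb_right, h.ha, hl]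
    by_cases h2 : j = i'
    · have h3 : i ≠ i' := by
        rw [← h2]
        exact hij
      rw [if_pos h2, if_neg h3, if_neg h3, ← h2]
      omega
    · rw [if_neg h2]
      by_cases h3 : i = i'
      · rw [if_pos h3, if_pos h3, ← h3]
        omega
      · rw [if_neg h3, if_neg h3]
        omega
  · have hq : res2 a l (q i) = C (c' l) * X 1 ^ 2 := by
      have hne : ∀ m, β m = i → m ≠ a := by
        rintro m hm rfl
        exact hij (hm.symm.trans h.ha)
      unfold res2
      rw [h'.ev, if_neg (hne a' h'.ha), if_neg (Ne.symm hla), zero_mul, zero_add,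
        Finset.sum_eq_single l]
      · rw [if_neg hla', if_pos rfl]
        rfl
      · intro m hm hml
        obtain ⟨-, h1, -⟩ := Finset.mem_filter.mp hm
        rw [if_neg (hne m h1), if_neg hml, zero_pow two_ne_zero, mul_zero]
      · intro h3
        exact absurd (Finset.mem_filter.mpr ⟨Finset.mem_univ l, hl, hla, hlb⟩) h3
    have hmon : (monomial (Finsupp.single (Fin.castAdd r a) (e 0) +
        Finsupp.single (Fin.castAdd r l) (e 1 % 2) +
          Finsupp.single (Fin.natAdd N i) (e 1 / 2))) (1 : k) =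
        X (Fin.castAdd r a) ^ (e 0) * X (Fin.castAdd r l) ^ (e 1 % 2) *
          X (Fin.natAdd N i) ^ (e 1 / 2) := by
      rw [X_pow_eq_monomial, X_pow_eq_monomial, X_pow_eq_monomial, monomial_mul, monomial_mul]
      simp
    rw [hmon]
    simp only [map_mul, map_pow, aeval_X, PP_left, PP_right, hq]
    have hra : res2 a l (X a : MvPolynomial (Fin N) k) = X 0 := by
      unfold res2
      rw [aeval_X, if_pos rfl]
    have hrb : res2 a l (X l : MvPolynomial (Fin N) k) = X 1 := by
      unfold res2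
      rw [aeval_X, if_neg hla', if_pos rfl]
    rw [hra, hrb]
    rw [mon2, mul_pow, ← pow_mul, map_pow]
    have e1 : e 1 = e 1 % 2 + 2 * (e 1 / 2) := by omega
    conv_rhs => rw [e1, pow_add]
    have e2 : (e 1 % 2 + 2 * (e 1 / 2)) / 2 = e 1 / 2 := by omega
    rw [e2]
    ring

end Test

end Pool.Agent.Helper52K9.DL
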