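import Pool.Agent.Helper52K9.DL.Gen2

/-! General double covers of products of projective spaces and quadrics: the assembly. -/

set_option autoImplicit false

namespace Pool.Agent.Helper52K9.DL

open MvPolynomial Pool.Agent.R867.Mov Pool.Agent.R867.J Pool.Agent.R867.H Pool.Agent.R867.D
open Pool.Agent.Helper93K9.DC

universe u v w z

section Coef

variable {M r : ℕ} {β : Fin M → Fin r} {d : Fin r → ℕ}

theorem coeff_top {L : Type u} [Field L] {A : Type v} [CommRing A] [Algebra L A] {j : Fin r}
    {a : Fin M} (ha : β a = j) {W : Fin M → Polynomial A} (hWa : W a = Polynomial.X)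
    (hW0 : ∀ m, m ≠ a → β m = j → (W m).natDegree = 0) (hW : ∀ m, β m ≠ j → W m = 0)
    {G : MvPolynomial (Fin M) L} (hG : G.support ⊆ expo β d) :
    (aeval W G).coeff (d j) = algebraMap L A (coeff (Finsupp.single a (d j)) G) := by
  classical
  rw [aeval_def, eval₂_eq', Polynomial.finsetSum_coeff]
  have hterm : ∀ e : Fin M →₀ ℕ, (algebraMap L (Polynomial A) (coeff e G) *
      ∏ i, W i ^ e i).coeff (d j) = algebraMap L A (coeff e G) *
        (∏ i, W i ^ e i).coeff (d j) := by
    intro e
    change (Polynomial.C (algebraMap L A (coeff e G)) * _).coeff (d j) = _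
    rw [Polynomial.coeff_C_mul]
  simp only [hterm]
  have hsingle : (∏ i, W i ^ (Finsupp.single a (d j)) i).coeff (d j) = 1 := by
    rw [Finset.prod_eq_single a]
    · rw [Finsupp.single_eq_same, hWa, Polynomial.coeff_X_pow, if_pos rfl]
    · intro m _ hm
      rw [Finsupp.single_eq_of_ne hm, pow_zero]
    · intro h
      exact absurd (Finset.mem_univ a) h
  rw [Finset.sum_eq_single (Finsupp.single a (d j))]
  · rw [hsingle, mul_one]
  · intro e he hne
    have hsum := mem_expo.mp (hG he) j
    by_cases h1 : ∃ m, β m ≠ j ∧ e m ≠ 0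
    · obtain ⟨m, h2, h3⟩ := h1
      have h4 : ∏ i, W i ^ e i = 0 := by
        apply Finset.prod_eq_zero (Finset.mem_univ m)
        rw [hW m h2, zero_pow h3]
      rw [h4, Polynomial.coeff_zero, mul_zero]
    · push Not at h1
      have hea : e a < d j := by
        by_contra hcon
        push Not at hcon
        apply hne
        have h2 : e a ≤ ∑ l with β l = j, e l :=
          Finset.single_le_sum (f := fun l => e l) (fun _ _ => Nat.zero_le _)
            (Finset.mem_filter.mpr ⟨Finset.mem_univ a, ha⟩)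
        have h3 : e a = d j := le_antisymm (h2.trans hsum) hcon
        ext m
        by_cases h4 : m = a
        · rw [h4, Finsupp.single_eq_same, h3]
        · rw [Finsupp.single_eq_of_ne h4]
          by_cases h5 : β m = j
          · have h6 : e a + e m ≤ ∑ l with β l = j, e l := by
              rw [← Finset.sum_pair (Ne.symm h4)]
              refine Finset.sum_le_sum_of_subset ?_
              intro l hl
              rw [Finset.mem_insert, Finset.mem_singleton] at hl
              rcases hl with rfl | rfl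
              · exact Finset.mem_filter.mpr ⟨Finset.mem_univ _, ha⟩
              · exact Finset.mem_filter.mpr ⟨Finset.mem_univ _, h5⟩
            omega
          · exact h1 m h5
      have h2 : (∏ i, W i ^ e i).natDegree ≤ e a := by
        refine (Polynomial.natDegree_prod_le _ _).trans ?_
        rw [Finset.sum_eq_single a]
        · rw [hWa]
          exact Polynomial.natDegree_X_pow_le _
        · intro m _ hm
          by_cases h5 : β m = j
          · have h6 := Polynomial.natDegree_pow_le (p := W m) (n := e m)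
            rw [hW0 m hm h5, mul_zero] at h6
            omega
          · rw [h1 m h5, pow_zero, Polynomial.natDegree_one]
        · intro h
          exact absurd (Finset.mem_univ a) h
      rw [Polynomial.coeff_eq_zero_of_natDegree_lt (lt_of_le_of_lt h2 hea), mul_zero]
  · intro h
    rw [notMem_support_iff.mp h, map_zero, zero_mul]

end Coef

section Supp

variable {M r : ℕ} {β : Fin M → Fin r} {d : Fin r → ℕ} {R : Type u} [Field R]

theorem sup_add {f g : MvPolynomial (Fin M) R} (hf : f.support ⊆ expo β d)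
    (hg : g.support ⊆ expo β d) : (f + g).support ⊆ expo β d := by
  classical
  exact support_add.trans (Finset.union_subset hf hg)

theorem sup_one : (1 : MvPolynomial (Fin M) R).support ⊆ expo β d := by
  have h : (1 : MvPolynomial (Fin M) R) = monomial 0 1 := rfl
  rw [h]
  refine support_monomial_subset.trans (Finset.singleton_subset_iff.mpr ?_)
  rw [mem_expo]
  intro j
  simp

theorem sup_pow {i : Fin M} {n : ℕ} (h : n ≤ d (β i)) :
    (X i ^ n : MvPolynomial (Fin M) R).support ⊆ expo β d := by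
  rw [X_pow_eq_monomial]
  exact support_monomial_subset.trans (Finset.singleton_subset_iff.mpr (single_mem h))

theorem sup_X {i : Fin M} (h : 1 ≤ d (β i)) :
    (X i : MvPolynomial (Fin M) R).support ⊆ expo β d := by
  have h1 := sup_pow (R := R) h
  rwa [pow_one] at h1

end Supp

section Main

variable {N r : ℕ} {k : Type u} [Field k] {β : Fin N → Fin r} {d : Fin r → ℕ}
  {q : Fin r → MvPolynomial (Fin N) k} {j : Fin r} {a b l : Fin N} {c : Fin N → k}

theorem coeff_restr (hprod : IsProd β q) (h : IsQ β j a b c (q j)) {L : Type u} [Field L]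
    [Algebra k L] {G : MvPolynomial (Fin (N + r)) L} (hG : G.support ⊆ expo (bb β) d) :
    (restr a {l | l = b ∨ β l ≠ j} (sub (PP q) G)).coeff (d j) =
      C (coeff (Finsupp.single (Fin.castAdd r a) (d j)) G) := by
  classical
  have h1 : restr a {l | l = b ∨ β l ≠ j} (sub (PP q) G) =
      aeval (fun m => restr a {l | l = b ∨ β l ≠ j}
        (MvPolynomial.map (algebraMap k L) (PP q m))) G :=
    comp_aeval_apply _ _ _
  rw [h1]
  have hX : ∀ l : Fin N, restr (L := L) a {l | l = b ∨ β l ≠ j} (X l) =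
      sr L a {l | l = b ∨ β l ≠ j} l := by
    intro l
    unfold restr
    rw [aeval_X]
  have hq' : ∀ i, restr (L := L) a {l | l = b ∨ β l ≠ j}
      (MvPolynomial.map (algebraMap k L) (q i)) =
      aeval (sr L a {l | l = b ∨ β l ≠ j}) (q i) := by
    intro i
    unfold restr
    rw [aeval_map_algebraMap]
  refine coeff_top (A := MvPolynomial (Fin N) L) (bb_left (β := β) a ▸ h.ha) ?_ ?_ ?_ hG
  · rw [PP_left, map_X, hX, sr_a]
  · intro m
    refine Fin.addCases (fun m => ?_) (fun i => ?_) m
    · intro hma _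
      rw [PP_left, map_X, hX]
      have hma' : m ≠ a := fun h => hma (by rw [h])
      by_cases hT : m ∈ {l : Fin N | l = b ∨ β l ≠ j}
      · rw [sr_T hma' hT]
        exact Polynomial.natDegree_zero
      · rw [sr_C hma' hT]
        exact Polynomial.natDegree_C _
    · intro _ hi
      rw [bb_right] at hi
      subst hi
      rw [PP_right, hq', h.ev, sr_a, sr_T h.hab.symm (Or.inl rfl), mul_zero, zero_add]
      have h2 : ∀ l ∈ Finset.univ.filter (fun l => β l = i ∧ l ≠ a ∧ l ≠ b),
          algebraMap k (Polynomial (MvPolynomial (Fin N) L)) (c l) *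
            sr L a {l | l = b ∨ β l ≠ i} l ^ 2 =
          Polynomial.C (algebraMap k (MvPolynomial (Fin N) L) (c l) * X l ^ 2) := by
        intro l hl
        obtain ⟨-, h3, h4, h5⟩ := Finset.mem_filter.mp hl
        rw [sr_C h4 (by
          rintro (h6 | h6)
          · exact h5 h6
          · exact h6 h3), map_mul, map_pow]
        rfl
      rw [Finset.sum_congr rfl h2, ← map_sum]
      exact Polynomial.natDegree_C _
  · intro m
    refine Fin.addCases (fun m => ?_) (fun i => ?_) m
    · intro hm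
      rw [bb_left] at hm
      rw [PP_left, map_X, hX, sr_T _ (Or.inr hm)]
      rintro rfl
      exact hm h.ha
    · intro hi
      rw [bb_right] at hi
      rw [PP_right, hq']
      rcases hprod i with h3 | ⟨a', b', c', h3, -⟩
      · rw [h3, map_zero]
      · refine h3.zero fun l hl => ?_
        refine sr_T ?_ (Or.inr (by rw [hl]; exact hi))
        rintro rfl
        exact hi (hl.symm.trans h.ha)

/-- a condition for each variable -/
theorem exists_pair [CharZero k] (hprod : IsProd β q) (h : IsQ β j a b c (q j))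
    (hd : ∀ i, 1 ≤ d i) (l : Fin N) (hl : l = b ∨ β l ≠ j) :
    ∃ Ψ : MvPolynomial (expo (bb β) d) k, Ψ ≠ 0 ∧ ∀ {L : Type u} [Field L] [CharZero L]
      [Algebra k L] (G : MvPolynomial (Fin (N + r)) L), G.support ⊆ expo (bb β) d →
        aeval (fun m : expo (bb β) d => coeff (m : Fin (N + r) →₀ ℕ) G) Ψ ≠ 0 →
        ∀ g h, sub (PP q) G = g * h →
          (degreeOf a g = 0 ∧ degreeOf l g = 0) ∨ (degreeOf a h = 0 ∧ degreeOf l h = 0) := by
  have hdega : ∀ {L : Type u} [Field L] [Algebra k L] {G : MvPolynomial (Fin (N + r)) L},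
      G.support ⊆ expo (bb β) d → degreeOf a (sub (PP q) G) ≤ d j := by
    intro L _ _ G hG
    have h1 := deg_le_of (deg_PP_one hprod h.ha (h.degreeOf_ab (Or.inl rfl))) hG
    omega
  by_cases hlb : l = b
  · subst hlb
    obtain ⟨Ψ, h1, h2⟩ := test_pair (k := k) (β := β) (d := d) (q := q) (a := a) (l := l)
      (n := fun _ => d j) (fun _ => hd j) (surj_ab h (fun _ => rfl))
    refine ⟨Ψ, h1, fun {L} _ _ _ G hG hne => h2 G hG hne h.hab (hdega hG) ?_⟩
    have h3 := deg_le_of (deg_PP_one hprod h.hb (h.degreeOf_ab (Or.inr rfl))) hG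
    omega
  · have hlj : β l ≠ j := hl.resolve_left hlb
    have hal : a ≠ l := by
      rintro rfl
      exact hlj h.ha
    by_cases h1 : degreeOf l (q (β l)) ≤ 1
    · obtain ⟨Ψ, h2, h3⟩ := test_pair (k := k) (β := β) (d := d) (q := q) (a := a) (l := l)
        (n := ![d j, d (β l)]) (fun i => by
          fin_cases i
          · exact hd _
          · exact hd _) (surj_one h hlj rfl rfl)
      refine ⟨Ψ, h2, fun {L} _ _ _ G hG hne => h3 G hG hne hal (hdega hG) ?_⟩
      have h4 := deg_le_of (deg_PP_one hprod rfl h1) hG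
      change _ ≤ d (β l)
      omega
    · rcases hprod (β l) with h2 | ⟨a', b', c', h2, -⟩
      · exfalso
        apply h1
        rw [h2, degreeOf_zero]
        exact Nat.zero_le _
      · have hla' : l ≠ a' := fun h3 => h1 (h2.degreeOf_ab (Or.inl h3))
        have hlb' : l ≠ b' := fun h3 => h1 (h2.degreeOf_ab (Or.inr h3))
        obtain ⟨Ψ, h4, h5⟩ := test_pair (k := k) (β := β) (d := d) (q := q) (a := a) (l := l)
          (n := ![d j, 2 * d (β l)]) (fun i => by
            fin_cases i
            · exact hd _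
            · have := hd (β l)
              change 1 ≤ 2 * d (β l)
              omega) (surj_two h h2 rfl hlj hla' hlb' rfl rfl)
        refine ⟨Ψ, h4, fun {L} _ _ _ G hG hne => h5 G hG hne hal (hdega hG) ?_⟩
        have h6 := deg_le_of (deg_PP_two hprod (l := l) rfl) hG
        exact h6

/-- the condition for the moving part -/
theorem exists_move [CharZero k] (hprod : IsProd β q) (hd : ∀ i, 1 ≤ d i ∧ d i ≤ 4) (l : Fin N) :
    ∃ Ψ : MvPolynomial (expo (bb β) d) k, Ψ ≠ 0 ∧ ∀ (G : MvPolynomial (Fin (N + r)) k),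
      G.support ⊆ expo (bb β) d →
        aeval (fun m : expo (bb β) d => coeff (m : Fin (N + r) →₀ ℕ) G) Ψ ≠ 0 →
        Irreducible (aeval (PP q) G) → q (β l) ≠ 0 →
        ∀ {K : Type u} [Field K] [Algebra k K] {ξ : Fin (N + 1) → K},
          GP (cover (aeval (PP q) G)) ξ → ∀ {D : Fin N → Derivation k K K},
          (∀ l m : Fin N, D l (ξ m.succ) = if m = l then 1 else 0) → ∀ a₀, Imm k a₀ →
            D l a₀ = 0 := by
  rcases hprod (β l) with h0 | ⟨a, b, c, h, l₀, hl₀, hl₀a, hl₀b⟩
  · exact ⟨1, one_ne_zero, fun G _ _ _ h1 => absurd h0 h1⟩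
  -- choose the third variable
  obtain ⟨l', hl', hl'a, hl'b, hor⟩ : ∃ l', β l' = β l ∧ l' ≠ a ∧ l' ≠ b ∧
      (l = a ∨ l = b ∨ l = l') := by
    by_cases h1 : l = a
    · exact ⟨l₀, hl₀, hl₀a, hl₀b, Or.inl h1⟩
    · by_cases h2 : l = b
      · exact ⟨l₀, hl₀, hl₀a, hl₀b, Or.inr (Or.inl h2)⟩
      · exact ⟨l, rfl, h1, h2, Or.inr (Or.inr rfl)⟩
  obtain ⟨Ψ, hΨ, hmain⟩ : ∃ Ψ : MvPolynomial (expo (bb β) d) k, Ψ ≠ 0 ∧
      ∀ (G : MvPolynomial (Fin (N + r)) k), G.support ⊆ expo (bb β) d →
        aeval (fun m : expo (bb β) d => coeff (m : Fin (N + r) →₀ ℕ) G) Ψ ≠ 0 →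
          (d (β l) ≤ 4 ∧ ndP (tw0 a b l' c q G) ≠ 0 ∨
            d (β l) ≤ 2 ∧ (denP (tw0 a b l' c q G)).eval 0 ≠ 0) := by
    by_cases h2 : d (β l) ≤ 2
    · obtain ⟨Ψ, hΨ, hm⟩ := exists_Phi (k := k) (S := expo (bb β) d)
        (fun (R : Type u) [CommRing R] [Algebra k R] G =>
          (denP (tw0 a b l' c q G)).eval (0 : R)) (fun {R} _ _ {R'} _ _ φ G => by
          rw [← tw0_map, denP_map, Polynomial.coe_mapRingHom, Polynomial.eval_zero_map]
          rfl) (G₀ := rename (Fin.castAdd r)
            (1 + X a : MvPolynomial (Fin N) k)) (by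
          rw [map_add, map_one, rename_X]
          refine sup_add (sup_one) (sup_X ?_)
          rw [bb_left, h.ha]
          exact (hd _).1) tw0_ex1
      refine ⟨Ψ, hΨ, fun G hG hne => Or.inr ⟨h2, ?_⟩⟩
      rwa [hm G hG] at hne
    · obtain ⟨Ψ, hΨ, hm⟩ := exists_Phi (k := k) (S := expo (bb β) d)
        (fun (R : Type u) [CommRing R] [Algebra k R] G => ndP (tw0 a b l' c q G))
        (fun {R} _ _ {R'} _ _ φ G => by
          rw [← tw0_map, ndP_map]
          rfl) (G₀ := rename (Fin.castAdd r)
            (1 + X a ^ 2 + X a ^ 3 + X b ^ 3 : MvPolynomial (Fin N) k)) (by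
          rw [map_add, map_add, map_add, map_one, map_pow, map_pow, map_pow, rename_X, rename_X]
          refine sup_add (sup_add (sup_add sup_one (sup_pow ?_)) (sup_pow ?_)) (sup_pow ?_)
          · rw [bb_left, h.ha]
            omega
          · rw [bb_left, h.ha]
            omega
          · rw [bb_left, h.hb]
            omega) (tw0_ex3 h)
      refine ⟨Ψ, hΨ, fun G hG hne => Or.inl ⟨(hd _).2, ?_⟩⟩
      rwa [hm G hG] at hne
  refine ⟨Ψ, hΨ, fun G hG hne hf _ {K} _ _ {ξ} hξ {D} hD a₀ ha => ?_⟩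
  obtain ⟨h1, h2, h3⟩ := kill_quadric hprod h hl' hl'a hl'b hG rfl hf hξ hD (hmain G hG hne) ha
  rcases hor with h4 | h4 | h4
  · rw [h4]
    exact h1
  · rw [h4]
    exact h2
  · rw [h4]
    exact h3

theorem degreeOf_ne_of_coeff {L : Type u} [Field L] {F : MvPolynomial (Fin N) L} {T : Set (Fin N)}
    {n : ℕ} (hn : 1 ≤ n) (h : (restr a T F).coeff n ≠ 0) : degreeOf a F ≠ 0 := by
  classical
  intro h0
  apply h
  have h1 : (restr a T F).natDegree ≤ 0 := by
    unfold restr
    refine natDegree_aeval_le (w := fun m => if m = a then 1 else 0) (fun m => ?_)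
      (fun e he => ?_)
    · by_cases h2 : m = a
      · rw [if_pos h2, h2, sr_a]
        exact Polynomial.natDegree_X_le
      · rw [if_neg h2]
        by_cases h3 : m ∈ T
        · rw [sr_T h2 h3, Polynomial.natDegree_zero]
        · rw [sr_C h2 h3, Polynomial.natDegree_C]
    · rw [Finset.sum_eq_single a]
      · rw [if_pos rfl, mul_one, ← h0]
        exact monomial_le_degreeOf a he
      · intro m _ hm
        rw [if_neg hm, mul_zero]
      · intro h2
        exact absurd (Finset.mem_univ a) h2
  exact Polynomial.coeff_eq_zero_of_natDegree_lt (by omega)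

/-- the main theorem -/
theorem general_prod [CharZero k] (hprod : IsProd β q) (hd : ∀ i, 1 ≤ d i ∧ d i ≤ 4)
    (hex : ∃ j, q j ≠ 0) :
    ∃ Φ : MvPolynomial (expo (bb β) d) k, Φ ≠ 0 ∧ ∀ (G : MvPolynomial (Fin (N + r)) k),
      G.support ⊆ expo (bb β) d →
        aeval (fun m : expo (bb β) d => coeff (m : Fin (N + r) →₀ ℕ) G) Φ ≠ 0 →
        Irreducible (MvPolynomial.map (algebraMap k (AlgebraicClosure k)) (aeval (PP q) G)) ∧
        ∀ {K : Type u} [Field K] [Algebra k K] {ξ : Fin (N + 1) → K},
          GP (cover (aeval (PP q) G)) ξ → Rel k ξ Set.univ := by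
  classical
  obtain ⟨j, hj⟩ := hex
  obtain ⟨a, b, c, h, -⟩ := (hprod j).resolve_left hj
  have key1 : ∀ l : Fin N, ∃ Ψ : MvPolynomial (expo (bb β) d) k, Ψ ≠ 0 ∧ ((l = b ∨ β l ≠ j) →
      ∀ {L : Type u} [Field L] [CharZero L]
      [Algebra k L] (G : MvPolynomial (Fin (N + r)) L), G.support ⊆ expo (bb β) d →
        aeval (fun m : expo (bb β) d => coeff (m : Fin (N + r) →₀ ℕ) G) Ψ ≠ 0 →
        ∀ g h, sub (PP q) G = g * h →
          (degreeOf a g = 0 ∧ degreeOf l g = 0) ∨ (degreeOf a h = 0 ∧ degreeOf l h = 0)) := by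
    intro l
    by_cases hl : l = b ∨ β l ≠ j
    · obtain ⟨Ψ, h1, h2⟩ := exists_pair hprod h (fun i => (hd i).1) l hl
      exact ⟨Ψ, h1, fun _ {L} _ _ _ G => h2 G⟩
    · exact ⟨1, one_ne_zero, fun h1 => absurd h1 hl⟩
  choose Ψ₁ hΨ₁ hpair using key1
  choose Ψ₂ hΨ₂ hmove using fun l => exists_move (β := β) (d := d) (q := q) hprod hd l
  have hmem : Finsupp.single (Fin.castAdd r a) (d j) ∈ expo (bb β) d :=
    single_mem (by rw [bb_left, h.ha])
  refine ⟨X ⟨_, hmem⟩ * ((∏ l, Ψ₁ l) * ∏ l, Ψ₂ l), mul_ne_zero (X_ne_zero _)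
    (mul_ne_zero (Finset.prod_ne_zero_iff.mpr fun l _ => hΨ₁ l)
      (Finset.prod_ne_zero_iff.mpr fun l _ => hΨ₂ l)), ?_⟩
  intro G hG hne
  rw [map_mul, map_mul, map_prod, map_prod, aeval_X] at hne
  have hne0 := left_ne_zero_of_mul hne
  have hne1 : ∀ l, aeval (fun m : expo (bb β) d => coeff (m : Fin (N + r) →₀ ℕ) G) (Ψ₁ l) ≠ 0 :=
    fun l => Finset.prod_ne_zero_iff.mp (left_ne_zero_of_mul (right_ne_zero_of_mul hne)) l
      (Finset.mem_univ l)
  have hne2 : ∀ l, aeval (fun m : expo (bb β) d => coeff (m : Fin (N + r) →₀ ℕ) G) (Ψ₂ l) ≠ 0 :=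
    fun l => Finset.prod_ne_zero_iff.mp (right_ne_zero_of_mul (right_ne_zero_of_mul hne)) l
      (Finset.mem_univ l)
  obtain ⟨f, hf⟩ : ∃ f, f = aeval (PP q) G := ⟨_, rfl⟩
  -- over the algebraic closure
  have hcL : CharZero (AlgebraicClosure k) :=
    charZero_of_injective_algebraMap (algebraMap k (AlgebraicClosure k)).injective
  obtain ⟨G', hG'⟩ : ∃ G', G' = MvPolynomial.map (algebraMap k (AlgebraicClosure k)) G :=
    ⟨_, rfl⟩
  have hfG' : MvPolynomial.map (algebraMap k (AlgebraicClosure k)) f = sub (PP q) G' := by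
    have h1 := sub_map (PP q) (Algebra.ofId k (AlgebraicClosure k)) G
    rw [sub_self, ← hf] at h1
    rw [hG']
    exact h1
  have hG's : G'.support ⊆ expo (bb β) d := by
    rw [hG']
    exact (MvPolynomial.support_map_subset _ _).trans hG
  have hcoef : ∀ Ψ : MvPolynomial (expo (bb β) d) k,
      aeval (fun m : expo (bb β) d => coeff (m : Fin (N + r) →₀ ℕ) G') Ψ =
        algebraMap k (AlgebraicClosure k)
          (aeval (fun m : expo (bb β) d => coeff (m : Fin (N + r) →₀ ℕ) G) Ψ) := by
    intro Ψ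
    rw [← MvPolynomial.aeval_algebraMap_apply]
    congr 2
    funext m
    rw [hG', coeff_map]
    rfl
  have hc0 : coeff (Finsupp.single (Fin.castAdd r a) (d j)) G' ≠ 0 := by
    rw [hG', coeff_map]
    exact (map_ne_zero _).mpr hne0
  have hrestr := coeff_restr hprod h hG's
  have hdF : degreeOf a (sub (PP q) G') ≠ 0 := by
    refine degreeOf_ne_of_coeff (T := {l | l = b ∨ β l ≠ j}) (hd j).1 ?_
    rw [hrestr]
    intro h0
    exact hc0 (C_injective _ _ (h0.trans (map_zero C).symm))
  have hirr : Irreducible (MvPolynomial.map (algebraMap k (AlgebraicClosure k)) f) := by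
    rw [hfG']
    refine irr_of_pairs (a := a) (b := b) (T := {l | l = b ∨ β l ≠ j}) (Or.inl rfl) hdF
      (fun l hl g h' hgh => ?_) hc0 hrestr
    refine hpair l hl G' hG's ?_ g h' hgh
    rw [hcoef]
    exact (map_ne_zero _).mpr (hne1 l)
  rw [← hf]
  refine ⟨hirr, fun {K} _ _ {ξ} hξ => ?_⟩
  have hfirr : Irreducible f := irr_of_map hirr
  have hda : degreeOf a f ≠ 0 := by
    intro h0
    apply hdF
    rw [← hfG']
    have h1 : degreeOf a (MvPolynomial.map (algebraMap k (AlgebraicClosure k)) f) ≤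
        degreeOf a f := by
      rw [degreeOf_le_iff]
      intro e he
      exact monomial_le_degreeOf a (MvPolynomial.support_map_subset _ _ he)
    omega
  refine rel_of_der hξ hfirr (I := {l | q (β l) ≠ 0}) (i₀ := a) (by
    change q (β a) ≠ 0
    rw [h.ha]
    exact hj) (Nat.one_le_iff_ne_zero.mpr hda) (fun l hl => ?_) (fun D hD a₀ ha₀ l hl => ?_)
  · have hql : q (β l) = 0 := by
      by_contra h1
      exact hl h1
    have h1 := deg_le_of (L := k) (deg_PP_one hprod (l := l) rfl (by
      rw [hql, degreeOf_zero]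
      exact Nat.zero_le _)) hG
    rw [sub_self, ← hf, one_mul] at h1
    exact h1.trans (hd _).2
  · refine hmove l G hG (hne2 l) (by rw [← hf]; exact hfirr) hl (by rw [← hf]; exact hξ) hD a₀ ha₀

end Main

end Pool.Agent.Helper52K9.DL
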