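import Pool.Agent.R867.H.Cub2

/-! Families of self-maps of a variety which contain the identity: the immovable functions are
killed by the tangent vectors. General form. -/

set_option autoImplicit false

namespace Pool.Agent.Helper52K9.DL

open MvPolynomial Pool.Agent.R867.Mov Pool.Agent.R867.J Pool.Agent.R867.H Pool.Agent.R867.D

universe u v w

variable {k K : Type u} [Field k] [Field K] [Algebra k K] {N : ℕ} {ξ : Fin N → K}

/-- `O` is a ring of rational functions with parameters (a subring of `Rt n K`), `ψ` is the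
evaluation at an infinitesimally small family of parameters, `y` a point over `O` of the variety
with generic point `ξ`, `θ` a homomorphism `K → Ω[ε]` with `θ ξ = ψ y`. -/
theorem kill_gen (hgen : IntermediateField.adjoin k (Set.range ξ) = ⊤) {n : ℕ}
    {O : Type v} [CommRing O] (ι : K →+* O) (φ : O →+* Rt n K) (hφ : Function.Injective φ)
    (hι : ∀ z, φ (ι z) = algebraMap K (Rt n K) z)
    {Ω : Type w} [Field Ω] (κ : K →+* Ω) (ψ : O →+* DualNumber Ω)
    (hψ : ∀ z, ψ (ι z) = TrivSqZeroExt.inl (κ z)) (θ : K →+* DualNumber Ω)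
    (hθ1 : ∀ z, (θ z).fst = κ z) (hθ2 : ∀ c : k, θ (algebraMap k K c) =
      TrivSqZeroExt.inl (κ (algebraMap k K c)))
    {y : Fin N → O} (hy0 : ∀ P : MvPolynomial (Fin N) k, aeval ξ P = 0 →
      aeval (fun m => φ (y m)) P = 0) (hy : ∀ m, ψ (y m) = θ (ξ m))
    {a : K} (ha : Imm k a) : (θ a).snd = 0 := by
  -- evaluation of polynomials
  obtain ⟨ev, hev⟩ : ∃ ev : MvPolynomial (Fin N) k →+* O,
      ev = eval₂Hom (ι.comp (algebraMap k K)) y := ⟨_, rfl⟩
  have hevC : ∀ c, ev (C c) = ι (algebraMap k K c) := fun c => by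
    rw [hev, eval₂Hom_C]
    rfl
  have hevX : ∀ m, ev (X m) = y m := fun m => by
    rw [hev, eval₂Hom_X']
  have hevφ : ∀ P, φ (ev P) = aeval (fun m => φ (y m)) P := by
    intro P
    induction P using MvPolynomial.induction_on with
    | C c =>
      rw [hevC, hι, aeval_C]
      exact (IsScalarTower.algebraMap_apply k K (Rt n K) c).symm
    | add p q hp hq => rw [map_add, map_add, hp, hq, map_add]
    | mul_X p m hp => rw [map_mul, map_mul, hp, hevX, map_mul, aeval_X]
  have hevψ : ∀ P, ψ (ev P) = θ (aeval ξ P) := by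
    intro P
    induction P using MvPolynomial.induction_on with
    | C c => rw [hevC, hψ, aeval_C, hθ2]
    | add p q hp hq => rw [map_add, map_add, hp, hq, map_add, map_add]
    | mul_X p m hp => rw [map_mul, map_mul, hp, hevX, hy, map_mul, aeval_X, map_mul]
  obtain ⟨σ, hσ⟩ := embedG (aeval ξ : MvPolynomial (Fin N) k →ₐ[k] K)
    (aeval (fun m => φ (y m)) : MvPolynomial (Fin N) k →ₐ[k] Rt n K) (fun P => by
      constructor
      · exact hy0 P
      · intro h0
        rw [← hevφ] at h0
        have h1 : ev P = 0 := hφ (h0.trans (map_zero φ).symm)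
        have h2 := hevψ P
        rw [h1, map_zero] at h2
        have h3 := hθ1 (aeval ξ P)
        rw [← h2, TrivSqZeroExt.fst_zero] at h3
        exact (map_eq_zero κ).mp h3.symm) (fun z => by
      obtain ⟨P, Q, h1, h2⟩ := exists_frac hgen z
      exact ⟨P, Q, h1, h2⟩)
  obtain ⟨c, hc⟩ := ha n σ
  obtain ⟨P, Q, hQ0, hPQ⟩ := exists_frac hgen a
  have h1 : ι c * ev Q = ev P := by
    apply hφ
    rw [map_mul, hι, hevφ, hevφ, hc]
    change σ a * (aeval (fun m => φ (y m)) : MvPolynomial (Fin N) k →ₐ[k] Rt n K) Q = _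
    rw [← hσ, ← hσ, ← map_mul, hPQ]
  have h2 := congrArg ψ h1
  rw [map_mul, hψ, hevψ, hevψ, ← hPQ, map_mul] at h2
  have h3 : IsUnit (θ (aeval ξ Q)) := by
    rw [TrivSqZeroExt.isUnit_iff_isUnit_fst, hθ1, isUnit_iff_ne_zero]
    exact (map_ne_zero κ).mpr hQ0
  have h4 := h3.mul_right_cancel h2
  rw [← h4, TrivSqZeroExt.snd_inl]

/-- a homomorphism to the dual numbers from derivations -/
theorem exists_theta {ι₀ : Type*} (s : Finset ι₀) (D : ι₀ → Derivation k K K) {Ω : Type w}
    [Field Ω] (κ : K →+* Ω) (v : ι₀ → Ω) : ∃ θ : K →+* DualNumber Ω, (∀ z, (θ z).fst = κ z) ∧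
      ∀ z, (θ z).snd = ∑ l ∈ s, v l * κ (D l z) := by
  refine ⟨{ toFun := fun z => TrivSqZeroExt.inl (κ z) +
              TrivSqZeroExt.inr (∑ l ∈ s, v l * κ (D l z))
            map_one' := ?_
            map_mul' := ?_
            map_zero' := ?_
            map_add' := ?_ }, fun z => ?_, fun z => ?_⟩
  · have h : ∑ l ∈ s, v l * κ (D l 1) = 0 := Finset.sum_eq_zero fun l _ => by
      rw [Derivation.map_one_eq_zero, map_zero, mul_zero]
    rw [map_one, h, TrivSqZeroExt.inr_zero, add_zero, TrivSqZeroExt.inl_one]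
  · intro x y
    apply TrivSqZeroExt.ext
    · simp
    · rw [DualNumber.snd_mul]
      simp only [TrivSqZeroExt.snd_add, TrivSqZeroExt.snd_inl, TrivSqZeroExt.snd_inr, zero_add,
        TrivSqZeroExt.fst_add, TrivSqZeroExt.fst_inl, TrivSqZeroExt.fst_inr, add_zero]
      rw [Finset.mul_sum, Finset.sum_mul, ← Finset.sum_add_distrib]
      refine Finset.sum_congr rfl fun l _ => ?_
      rw [Derivation.leibniz, smul_eq_mul, smul_eq_mul, map_add, map_mul, map_mul]
      ring
  · have h : ∑ l ∈ s, v l * κ (D l 0) = 0 := Finset.sum_eq_zero fun l _ => by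
      rw [map_zero, map_zero, mul_zero]
    rw [map_zero, h, TrivSqZeroExt.inr_zero, add_zero, TrivSqZeroExt.inl_zero]
  · intro x y
    apply TrivSqZeroExt.ext
    · simp
    · simp only [TrivSqZeroExt.snd_add, TrivSqZeroExt.snd_inl, TrivSqZeroExt.snd_inr, zero_add]
      rw [← Finset.sum_add_distrib]
      refine Finset.sum_congr rfl fun l _ => ?_
      rw [map_add, map_add]
      ring
  · simp
  · simp

end Pool.Agent.Helper52K9.DL
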