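import Pool.Agent.Helper52K9.DL.Pair

/-! Products of projective spaces and quadrics. -/

set_option autoImplicit false

namespace Pool.Agent.Helper52K9.DL

open MvPolynomial Pool.Agent.R867.H

universe u v w z

section Irr

variable {N : ℕ} {L : Type u} [Field L]

open Classical in
/-- the values of the variables -/
noncomputable def sr (L : Type u) [Field L] (a : Fin N) (T : Set (Fin N)) (m : Fin N) :
    Polynomial (MvPolynomial (Fin N) L) :=
  if m = a then Polynomial.X else if m ∈ T then 0 else Polynomial.C (X m)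

theorem sr_a (a : Fin N) (T : Set (Fin N)) : sr L a T a = Polynomial.X := by
  unfold sr
  rw [if_pos rfl]

theorem sr_T {a : Fin N} {T : Set (Fin N)} {m : Fin N} (hm : m ≠ a) (hT : m ∈ T) :
    sr L a T m = 0 := by
  unfold sr
  rw [if_neg hm, if_pos hT]

theorem sr_C {a : Fin N} {T : Set (Fin N)} {m : Fin N} (hm : m ≠ a) (hT : m ∉ T) :
    sr L a T m = Polynomial.C (X m) := by
  unfold sr
  rw [if_neg hm, if_neg hT]

/-- restriction to the variables outside `T`, as a polynomial in the variable `a` -/
noncomputable def restr (a : Fin N) (T : Set (Fin N)) :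
    MvPolynomial (Fin N) L →ₐ[L] Polynomial (MvPolynomial (Fin N) L) :=
  aeval (sr L a T)

theorem irr_of_pairs {F : MvPolynomial (Fin N) L} {a b : Fin N} {T : Set (Fin N)} (hb : b ∈ T)
    (hF0 : degreeOf a F ≠ 0)
    (hpair : ∀ l ∈ T, ∀ g h : MvPolynomial (Fin N) L, F = g * h →
      (degreeOf a g = 0 ∧ degreeOf l g = 0) ∨ (degreeOf a h = 0 ∧ degreeOf l h = 0))
    {d : ℕ} {c₀ : L} (hc₀ : c₀ ≠ 0) (hcoef : (restr a T F).coeff d = C c₀) : Irreducible F := by
  classical
  have hFne : F ≠ 0 := by
    rintro rfl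
    exact hF0 (degreeOf_zero a)
  have key : ∀ g h : MvPolynomial (Fin N) L, F = g * h → degreeOf a g = 0 → IsUnit g := by
    intro g h hF hg
    have hT : ∀ l ∈ T, degreeOf l g = 0 := by
      intro l hl
      rcases hpair l hl g h hF with h1 | h1
      · exact h1.2
      · exfalso
        apply hF0
        have h2 := degreeOf_mul_le a g h
        rw [← hF, hg, h1.1] at h2
        omega
    have h1 : restr a T g = Polynomial.C g := by
      have h2 : Polynomial.C g = eval₂Hom ((Polynomial.C).comp C)
          (fun m : Fin N => Polynomial.C (X m)) g := by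
        have h3 : (Polynomial.C : MvPolynomial (Fin N) L →+* _) = eval₂Hom ((Polynomial.C).comp C)
          (fun m : Fin N => Polynomial.C (X m)) := by
          apply MvPolynomial.ringHom_ext
          · intro c
            rw [eval₂Hom_C]
            rfl
          · intro m
            rw [eval₂Hom_X']
        exact congrArg (fun φ => φ g) h3
      rw [h2]
      unfold restr
      change eval₂Hom _ _ g = _
      refine eval₂Hom_congr' rfl (fun l hl _ => ?_) rfl
      obtain ⟨e, he, hle⟩ := (mem_vars_iff_mem_support l).mp hl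
      have h4 := monomial_le_degreeOf l he
      have h5 := Finsupp.mem_support_iff.mp hle
      rw [sr_C]
      · rintro rfl
        rw [hg] at h4
        omega
      · intro h6
        rw [hT l h6] at h4
        omega
    have h3 := hcoef
    rw [hF, map_mul, h1, Polynomial.coeff_C_mul] at h3
    exact isUnit_of_dvd_unit ⟨_, h3.symm⟩ ((isUnit_iff_ne_zero.mpr hc₀).map C)
  constructor
  · intro hu
    obtain ⟨c, -, hc⟩ := isUnit_iff_eq_C_of_isReduced.mp hu
    apply hF0
    rw [hc, degreeOf_C]
  · intro g h hF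
    rcases hpair b hb g h hF with h1 | h1
    · exact Or.inl (key g h hF h1.1)
    · exact Or.inr (key h g (by rw [hF, mul_comm]) h1.1)

end Irr

section Model

variable {N r : ℕ} {k : Type u} [Field k] {β : Fin N → Fin r}

/-- `q = x_a x_b + ∑ c_l x_l²`, the sum over the other variables of the block `j` -/
structure IsQ (β : Fin N → Fin r) (j : Fin r) (a b : Fin N) (c : Fin N → k)
    (q : MvPolynomial (Fin N) k) : Prop where
  ha : β a = j
  hb : β b = j
  hab : a ≠ b
  hc : ∀ l, c l ≠ 0
  hq : q = X a * X b + ∑ l ∈ Finset.univ.filter (fun l => β l = j ∧ l ≠ a ∧ l ≠ b),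
    C (c l) * X l ^ 2

variable {j : Fin r} {a b : Fin N} {c : Fin N → k} {q : MvPolynomial (Fin N) k}

theorem IsQ.ev (h : IsQ β j a b c q) {A : Type v} [CommRing A] [Algebra k A] (s : Fin N → A) :
    aeval s q = s a * s b + ∑ l ∈ Finset.univ.filter (fun l => β l = j ∧ l ≠ a ∧ l ≠ b),
      algebraMap k A (c l) * s l ^ 2 := by
  rw [h.hq, map_add, map_mul, aeval_X, aeval_X, map_sum]
  congr 1
  refine Finset.sum_congr rfl fun l _ => ?_
  rw [map_mul, map_pow, aeval_X, aeval_C]

/-- only the variables of the block matter -/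
theorem IsQ.congr (h : IsQ β j a b c q) {A : Type v} [CommRing A] [Algebra k A]
    {s s' : Fin N → A} (hs : ∀ l, β l = j → s l = s' l) : aeval s q = aeval s' q := by
  rw [h.ev, h.ev, hs a h.ha, hs b h.hb]
  congr 1
  refine Finset.sum_congr rfl fun l hl => ?_
  rw [hs l (Finset.mem_filter.mp hl).2.1]

theorem IsQ.zero (h : IsQ β j a b c q) {A : Type v} [CommRing A] [Algebra k A]
    {s : Fin N → A} (hs : ∀ l, β l = j → s l = 0) : aeval s q = 0 := by
  rw [h.ev, hs a h.ha, zero_mul, zero_add]
  refine Finset.sum_eq_zero fun l hl => ?_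
  rw [hs l (Finset.mem_filter.mp hl).2.1, zero_pow two_ne_zero, mul_zero]

theorem IsQ.degreeOf_other (h : IsQ β j a b c q) {l : Fin N} (hl : β l ≠ j) :
    degreeOf l q = 0 := by
  have hX : ∀ m, β m = j → degreeOf l (X m : MvPolynomial (Fin N) k) = 0 := by
    intro m hm
    apply degreeOf_X_of_ne
    rintro rfl
    exact hl hm
  have h1 : degreeOf l (X a * X b : MvPolynomial (Fin N) k) ≤ 0 := by
    refine (degreeOf_mul_le _ _ _).trans ?_
    rw [hX a h.ha, hX b h.hb]
  have h2 : degreeOf l (∑ m ∈ Finset.univ.filter (fun l => β l = j ∧ l ≠ a ∧ l ≠ b),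
      C (c m) * X m ^ 2 : MvPolynomial (Fin N) k) ≤ 0 := by
    refine (degreeOf_sum_le _ _ _).trans (Finset.sup_le fun m hm => ?_)
    refine (degreeOf_mul_le _ _ _).trans ?_
    have h3 := degreeOf_pow_le l (X m : MvPolynomial (Fin N) k) 2
    rw [hX m (Finset.mem_filter.mp hm).2.1, mul_zero] at h3
    rw [degreeOf_C]
    omega
  have h3 := degreeOf_add_le l (X a * X b : MvPolynomial (Fin N) k)
    (∑ m ∈ Finset.univ.filter (fun l => β l = j ∧ l ≠ a ∧ l ≠ b), C (c m) * X m ^ 2)
  rw [← h.hq] at h3
  omega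

theorem IsQ.degreeOf_le (h : IsQ β j a b c q) (l : Fin N) : degreeOf l q ≤ 2 := by
  have hX : ∀ m, degreeOf l (X m : MvPolynomial (Fin N) k) ≤ 1 := by
    intro m
    rw [degreeOf_X]
    split_ifs <;> omega
  have h1 : degreeOf l (X a * X b : MvPolynomial (Fin N) k) ≤ 2 := by
    refine (degreeOf_mul_le _ _ _).trans ?_
    have := hX a
    have := hX b
    omega
  have h2 : degreeOf l (∑ m ∈ Finset.univ.filter (fun l => β l = j ∧ l ≠ a ∧ l ≠ b),
      C (c m) * X m ^ 2 : MvPolynomial (Fin N) k) ≤ 2 := by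
    refine (degreeOf_sum_le _ _ _).trans (Finset.sup_le fun m hm => ?_)
    refine (degreeOf_mul_le _ _ _).trans ?_
    have h3 := degreeOf_pow_le l (X m : MvPolynomial (Fin N) k) 2
    have h4 := hX m
    rw [degreeOf_C]
    omega
  have h3 := degreeOf_add_le l (X a * X b : MvPolynomial (Fin N) k)
    (∑ m ∈ Finset.univ.filter (fun l => β l = j ∧ l ≠ a ∧ l ≠ b), C (c m) * X m ^ 2)
  rw [← h.hq] at h3
  omega

theorem IsQ.degreeOf_ab (h : IsQ β j a b c q) {l : Fin N} (hl : l = a ∨ l = b) :
    degreeOf l q ≤ 1 := by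
  have h1 : degreeOf l (X a * X b : MvPolynomial (Fin N) k) ≤ 1 := by
    refine (degreeOf_mul_le _ _ _).trans ?_
    rcases hl with rfl | rfl
    · rw [degreeOf_X_self, degreeOf_X_of_ne h.hab]
    · rw [degreeOf_X_self, degreeOf_X_of_ne h.hab.symm]
  have h2 : degreeOf l (∑ m ∈ Finset.univ.filter (fun l => β l = j ∧ l ≠ a ∧ l ≠ b),
      C (c m) * X m ^ 2 : MvPolynomial (Fin N) k) ≤ 1 := by
    refine (degreeOf_sum_le _ _ _).trans (Finset.sup_le fun m hm => ?_)
    refine (degreeOf_mul_le _ _ _).trans ?_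
    have h3 := degreeOf_pow_le l (X m : MvPolynomial (Fin N) k) 2
    have h4 : degreeOf l (X m : MvPolynomial (Fin N) k) = 0 := by
      apply degreeOf_X_of_ne
      rintro rfl
      rcases hl with hl | hl
      · exact (Finset.mem_filter.mp hm).2.2.1 hl
      · exact (Finset.mem_filter.mp hm).2.2.2 hl
    rw [h4, mul_zero] at h3
    rw [degreeOf_C]
    omega
  have h3 := degreeOf_add_le l (X a * X b : MvPolynomial (Fin N) k)
    (∑ m ∈ Finset.univ.filter (fun l => β l = j ∧ l ≠ a ∧ l ≠ b), C (c m) * X m ^ 2)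
  rw [← h.hq] at h3
  omega

/-- the isotropic directions -/
noncomputable def vq (a b l : Fin N) (c : Fin N → k) : Fin N → Polynomial k :=
  fun m => if m = a then 1 else if m = b then - (Polynomial.C (c l) * Polynomial.X ^ 2) else
    if m = l then Polynomial.X else 0

theorem vq_natDegree (a b l : Fin N) (c : Fin N → k) (m : Fin N) :
    (vq a b l c m).natDegree ≤ 2 := by
  unfold vq
  split_ifs
  · simp
  · rw [Polynomial.natDegree_neg]
    exact (Polynomial.natDegree_C_mul_le _ _).trans (Polynomial.natDegree_X_pow_le 2)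
  · exact Polynomial.natDegree_X_le.trans (by norm_num)
  · simp

theorem vq_other (h : IsQ β j a b c q) {l m : Fin N} (hl : β l = j) (hm : β m ≠ j) :
    vq a b l c m = 0 := by
  unfold vq
  rw [if_neg, if_neg, if_neg]
  · rintro rfl
    exact hm hl
  · rintro rfl
    exact hm h.hb
  · rintro rfl
    exact hm h.ha

/-- the quadratic form is of degree one on the isotropic lines -/
theorem tw_q (h : IsQ β j a b c q) {l : Fin N} (hl : β l = j) (hla : l ≠ a) (hlb : l ≠ b)
    {R : Type v} [CommRing R] [Algebra k R] (x : Fin N → R) :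
    (tw x (fun m => (vq a b l c m).map (algebraMap k R)) q).natDegree ≤ 1 := by
  unfold tw
  rw [h.ev]
  have hva : (vq a b l c a).map (algebraMap k R) = 1 := by
    unfold vq
    rw [if_pos rfl, Polynomial.map_one]
  have hvb : (vq a b l c b).map (algebraMap k R) =
      - (Polynomial.C (algebraMap k R (c l)) * Polynomial.X ^ 2) := by
    unfold vq
    rw [if_neg h.hab.symm, if_pos rfl, Polynomial.map_neg, Polynomial.map_mul,
      Polynomial.map_C, Polynomial.map_pow, Polynomial.map_X]
  have hvl : (vq a b l c l).map (algebraMap k R) = Polynomial.X := by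
    unfold vq
    rw [if_neg hla, if_neg hlb, if_pos rfl, Polynomial.map_X]
  have hvm : ∀ m, m ≠ a → m ≠ b → m ≠ l → (vq a b l c m).map (algebraMap k R) = 0 := by
    intro m h1 h2 h3
    unfold vq
    rw [if_neg h1, if_neg h2, if_neg h3, Polynomial.map_zero]
  have hlS : l ∈ Finset.univ.filter (fun l => β l = j ∧ l ≠ a ∧ l ≠ b) :=
    Finset.mem_filter.mpr ⟨Finset.mem_univ l, hl, hla, hlb⟩
  rw [← Finset.add_sum_erase _ _ hlS]
  beta_reduce
  rw [hva, hvb, hvl]
  have hsum : ∑ m ∈ (Finset.univ.filter (fun l => β l = j ∧ l ≠ a ∧ l ≠ b)).erase l,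
      algebraMap k (Polynomial (Polynomial R)) (c m) * (Polynomial.C (Polynomial.C (x m)) +
        Polynomial.X * Polynomial.C ((vq a b l c m).map (algebraMap k R))) ^ 2 =
      Polynomial.C (Polynomial.C (∑ m ∈ (Finset.univ.filter
        (fun l => β l = j ∧ l ≠ a ∧ l ≠ b)).erase l, algebraMap k R (c m) * x m ^ 2)) := by
    rw [map_sum, map_sum]
    refine Finset.sum_congr rfl fun m hm => ?_
    obtain ⟨h1, h2⟩ := Finset.mem_erase.mp hm
    obtain ⟨-, -, h3, h4⟩ := Finset.mem_filter.mp h2
    rw [hvm m h3 h4 h1, map_zero, mul_zero, add_zero, map_mul, map_mul, map_pow, map_pow]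
    rfl
  rw [hsum]
  have halg : algebraMap k (Polynomial (Polynomial R)) (c l) =
    Polynomial.C (Polynomial.C (algebraMap k R (c l))) := rfl
  rw [halg]
  have hform : (Polynomial.C (Polynomial.C (x a)) + Polynomial.X * Polynomial.C 1) *
      (Polynomial.C (Polynomial.C (x b)) + Polynomial.X *
        Polynomial.C (-(Polynomial.C (algebraMap k R (c l)) * Polynomial.X ^ 2))) +
      (Polynomial.C (Polynomial.C (algebraMap k R (c l))) *
        (Polynomial.C (Polynomial.C (x l)) + Polynomial.X * Polynomial.C Polynomial.X) ^ 2 +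
      Polynomial.C (Polynomial.C (∑ m ∈ (Finset.univ.filter
        (fun l => β l = j ∧ l ≠ a ∧ l ≠ b)).erase l, algebraMap k R (c m) * x m ^ 2))) =
      Polynomial.C (Polynomial.C (x b) - Polynomial.C (x a) *
        (Polynomial.C (algebraMap k R (c l)) * Polynomial.X ^ 2) +
        2 * Polynomial.C (algebraMap k R (c l)) * Polynomial.C (x l) * Polynomial.X) *
          Polynomial.X +
      Polynomial.C (Polynomial.C (x a) * Polynomial.C (x b) +
        Polynomial.C (algebraMap k R (c l)) * Polynomial.C (x l) ^ 2 +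
        Polynomial.C (∑ m ∈ (Finset.univ.filter
          (fun l => β l = j ∧ l ≠ a ∧ l ≠ b)).erase l, algebraMap k R (c m) * x m ^ 2)) := by
    simp only [map_add, map_sub, map_mul, map_neg, map_pow, map_one, map_ofNat]
    ring
  rw [hform]
  exact Polynomial.natDegree_linear_le

/-- a quadratic form of another block is constant on the isotropic lines -/
theorem tw_q' {i : Fin r} {a' b' : Fin N} {c' : Fin N → k} {q' : MvPolynomial (Fin N) k}
    (h' : IsQ β i a' b' c' q') {R : Type v} [CommRing R] [Algebra k R] (x : Fin N → R)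
    {v : Fin N → Polynomial R} (hv : ∀ m, β m = i → v m = 0) :
    (tw (B := k) x v q').natDegree ≤ 0 := by
  have h1 : tw (B := k) x v q' = aeval (fun m => Polynomial.C (Polynomial.C (x m))) q' := by
    unfold tw
    refine h'.congr fun m hm => ?_
    rw [hv m hm, map_zero, mul_zero, add_zero]
  rw [h1]
  refine natDegree_aeval_le (w := fun _ => 0) (fun m => ?_) (fun e _ => ?_)
  · rw [Polynomial.natDegree_C]
  · simp

end Model

end Pool.Agent.Helper52K9.DL
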