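import Pool.Agent.Helper52K9.DL.Phi

/-! Irreducibility with respect to two of the variables. -/

set_option autoImplicit false

namespace Pool.Agent.Helper52K9.DL

open MvPolynomial Pool.Agent.R867.H

universe u v w z

section

variable {N : ℕ}

/-- restriction to the plane of two coordinates -/
noncomputable def res2 (a l : Fin N) {R : Type v} [CommRing R] :
    MvPolynomial (Fin N) R →ₐ[R] MvPolynomial (Fin 2) R :=
  aeval (fun m => if m = a then X 0 else if m = l then X 1 else 0)

/-- the other variables become coefficients -/
noncomputable def co2 (a l : Fin N) (L : Type u) [Field L] :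
    MvPolynomial (Fin N) L →ₐ[L] MvPolynomial (Fin 2) (MvPolynomial (Fin N) L) :=
  aeval (fun m => if m = a then X 0 else if m = l then X 1 else C (X m))

theorem sp_map' {S : Finset (Fin 2 →₀ ℕ)} {R : Type v} [CommRing R] [Algebra ℚ R] {R' : Type w}
    [CommRing R'] [Algebra ℚ R'] (φ : R →+* R') (G : MvPolynomial (Fin 2) R)
    (Φ : MvPolynomial S ℚ) : φ (sp S G Φ) = sp S (MvPolynomial.map φ G) Φ := by
  have h : φ.comp (sp S G) = sp S (MvPolynomial.map φ G) := by
    apply MvPolynomial.ringHom_ext
    · intro q
      rw [RingHom.comp_apply]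
      unfold sp
      change φ (aeval _ (C q)) = aeval _ (C q)
      rw [aeval_C, aeval_C]
      have h2 : φ.comp (algebraMap ℚ R) = algebraMap ℚ R' := Subsingleton.elim _ _
      rw [← h2]
      rfl
    · intro m
      rw [RingHom.comp_apply]
      unfold sp
      change φ (aeval _ (X m)) = aeval _ (X m)
      rw [aeval_X, aeval_X, coeff_map]
  rw [← h]
  rfl

variable {L : Type u} [Field L] {a l : Fin N}

theorem free_of_const {g g₀ : MvPolynomial (Fin N) L} (h : co2 a l L g = C g₀) :
    degreeOf a g = 0 ∧ degreeOf l g = 0 := by
  have h1 : (aeval (fun i : Fin 2 => if i = 0 then (X a : MvPolynomial (Fin N) L) else X l) :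
      MvPolynomial (Fin 2) (MvPolynomial (Fin N) L) →ₐ[MvPolynomial (Fin N) L]
        MvPolynomial (Fin N) L) (co2 a l L g) = g := by
    have h2 : ((aeval (fun i : Fin 2 => if i = 0 then (X a : MvPolynomial (Fin N) L) else X l) :
      MvPolynomial (Fin 2) (MvPolynomial (Fin N) L) →ₐ[MvPolynomial (Fin N) L]
        MvPolynomial (Fin N) L).toRingHom.comp (co2 a l L).toRingHom) =
        RingHom.id (MvPolynomial (Fin N) L) := by
      apply MvPolynomial.ringHom_ext
      · intro c
        change aeval _ (co2 a l L (C c)) = C c
        unfold co2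
        rw [aeval_C]
        change aeval _ (C (C c)) = C c
        rw [aeval_C]
        rfl
      · intro m
        change aeval _ (co2 a l L (X m)) = X m
        unfold co2
        rw [aeval_X]
        split_ifs with h3 h4
        · rw [aeval_X, if_pos rfl, h3]
        · rw [aeval_X, if_neg (by decide), h4]
        · rw [aeval_C]
          rfl
    exact congrArg (fun φ => φ g) h2
  have h3 : (aeval (fun i : Fin 2 => (0 : MvPolynomial (Fin N) L)) :
      MvPolynomial (Fin 2) (MvPolynomial (Fin N) L) →ₐ[MvPolynomial (Fin N) L]
        MvPolynomial (Fin N) L) (co2 a l L g) =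
      aeval (fun m => if m = a then 0 else if m = l then 0 else X m) g := by
    have h2 : ((aeval (fun i : Fin 2 => (0 : MvPolynomial (Fin N) L)) :
      MvPolynomial (Fin 2) (MvPolynomial (Fin N) L) →ₐ[MvPolynomial (Fin N) L]
        MvPolynomial (Fin N) L).toRingHom.comp (co2 a l L).toRingHom) =
        (aeval (fun m => if m = a then 0 else if m = l then 0 else X m) :
          MvPolynomial (Fin N) L →ₐ[L] MvPolynomial (Fin N) L).toRingHom := by
      apply MvPolynomial.ringHom_ext
      · intro c
        change aeval _ (co2 a l L (C c)) = aeval _ (C c)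
        unfold co2
        rw [aeval_C, aeval_C]
        change aeval _ (C (C c)) = C c
        rw [aeval_C]
        rfl
      · intro m
        change aeval _ (co2 a l L (X m)) = aeval _ (X m)
        unfold co2
        rw [aeval_X, aeval_X]
        split_ifs with h3 h4
        · rw [aeval_X]
        · rw [aeval_X]
        · rw [aeval_C]
          rfl
    exact congrArg (fun φ => φ g) h2
  rw [h, aeval_C] at h1 h3
  change g₀ = g at h1
  change g₀ = _ at h3
  rw [h1] at h3
  have key : ∀ i, i = a ∨ i = l → degreeOf i g = 0 := by
    intro i hi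
    have h4 : degreeOf i (aeval (fun m => if m = a then (0 : MvPolynomial (Fin N) L)
        else if m = l then 0 else X m) g) ≤ 0 := by
      refine degreeOf_aeval_le (w := fun _ => 0) (fun m => ?_) (fun e _ => ?_)
      · split_ifs with h5 h6
        · rw [degreeOf_zero]
        · rw [degreeOf_zero]
        · have h7 : i ≠ m := by
            rintro rfl
            rcases hi with rfl | rfl
            · exact h5 rfl
            · exact h6 rfl
          rw [degreeOf_X_of_ne h7]
      · simp
    rw [← h3] at h4
    omega
  exact ⟨key a (Or.inl rfl), key l (Or.inr rfl)⟩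

/-- a polynomial which is irreducible with respect to two variables -/
theorem pair [CharZero L] {n : Fin 2 → ℕ} {F : MvPolynomial (Fin N) L} (hal : a ≠ l)
    (ha : degreeOf a F ≤ n 0) (hl : degreeOf l F ≤ n 1) {Φ : MvPolynomial (expo id n) ℚ}
    (hΦ : ∀ {E : Type u} [Field E] [CharZero E] (f : MvPolynomial (Fin 2) E),
      f.support ⊆ expo id n → sp (expo id n) f Φ ≠ 0 → Irreducible f)
    (hne : sp (expo id n) (res2 a l F) Φ ≠ 0) {g h : MvPolynomial (Fin N) L} (hF : F = g * h) :
    (degreeOf a g = 0 ∧ degreeOf l g = 0) ∨ (degreeOf a h = 0 ∧ degreeOf l h = 0) := by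
  have hcE : CharZero (FractionRing (MvPolynomial (Fin N) L)) :=
    charZero_of_injective_algebraMap
      (IsFractionRing.injective (MvPolynomial (Fin N) L) (FractionRing (MvPolynomial (Fin N) L)))
  obtain ⟨ι, hι⟩ : ∃ ι : MvPolynomial (Fin N) L →+* FractionRing (MvPolynomial (Fin N) L),
      ι = algebraMap _ _ := ⟨_, rfl⟩
  have hιinj : Function.Injective ι := by
    rw [hι]
    exact IsFractionRing.injective _ _
  have hdeg : ∀ i : Fin 2, degreeOf i (co2 a l L F) ≤ n i := by
    intro i
    unfold co2
    refine degreeOf_aeval_le (w := fun m => if m = a then (if i = 0 then 1 else 0) else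
      if m = l then (if i = 1 then 1 else 0) else 0) (fun m => ?_) (fun e he => ?_)
    · by_cases h1 : m = a
      · rw [if_pos h1, if_pos h1]
        split_ifs with h2
        · rw [h2]
          exact (degreeOf_X_self _).le
        · rw [degreeOf_X_of_ne h2]
      · rw [if_neg h1, if_neg h1]
        by_cases h3 : m = l
        · rw [if_pos h3, if_pos h3]
          split_ifs with h2
          · rw [h2]
            exact (degreeOf_X_self _).le
          · rw [degreeOf_X_of_ne h2]
        · rw [if_neg h3, if_neg h3, degreeOf_C]
    · fin_cases i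
      · refine le_trans ?_ ((monomial_le_degreeOf a he).trans ha)
        rw [Finset.sum_eq_single a]
        · simp
        · intro m _ hm
          simp [hm]
        · intro h1
          exact absurd (Finset.mem_univ a) h1
      · refine le_trans ?_ ((monomial_le_degreeOf l he).trans hl)
        rw [Finset.sum_eq_single l]
        · simp [hal.symm]
        · intro m _ hm
          simp [hm]
        · intro h1
          exact absurd (Finset.mem_univ l) h1
  have hsupp : (MvPolynomial.map ι (co2 a l L F)).support ⊆ expo id n := by
    intro e he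
    rw [mem_expo]
    intro j
    have h1 : (Finset.univ.filter fun i : Fin 2 => id i = j) = {j} := by
      ext i
      simp
    rw [h1, Finset.sum_singleton]
    exact (monomial_le_degreeOf j (MvPolynomial.support_map_subset _ _ he)).trans (hdeg j)
  have hsp : sp (expo id n) (MvPolynomial.map ι (co2 a l L F)) Φ ≠ 0 := by
    rw [← sp_map' ι]
    intro h0
    have h1 : sp (expo id n) (co2 a l L F) Φ = 0 := hιinj (h0.trans (map_zero ι).symm)
    apply hne
    have h2 : MvPolynomial.map (aeval (fun _ => 0) : MvPolynomial (Fin N) L →ₐ[L] L).toRingHom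
        (co2 a l L F) = res2 a l F := by
      have h3 : ((MvPolynomial.map (aeval (fun _ => 0) :
          MvPolynomial (Fin N) L →ₐ[L] L).toRingHom).comp (co2 a l L).toRingHom) =
          (res2 a l : MvPolynomial (Fin N) L →ₐ[L] MvPolynomial (Fin 2) L).toRingHom := by
        apply MvPolynomial.ringHom_ext
        · intro c
          change MvPolynomial.map _ (co2 a l L (C c)) = res2 a l (C c)
          unfold co2 res2
          rw [aeval_C, aeval_C]
          change MvPolynomial.map _ (C (C c)) = C c
          rw [map_C]
          congr 1
          exact aeval_C _ _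
        · intro m
          change MvPolynomial.map _ (co2 a l L (X m)) = res2 a l (X m)
          unfold co2 res2
          rw [aeval_X, aeval_X]
          split_ifs with h4 h5
          · rw [map_X]
          · rw [map_X]
          · rw [map_C]
            have h6 : (aeval (fun _ => 0) : MvPolynomial (Fin N) L →ₐ[L] L).toRingHom (X m) = 0 :=
              aeval_X _ _
            rw [h6, C_0]
      exact congrArg (fun φ => φ F) h3
    rw [← h2, ← sp_map', h1, map_zero]
  have hirr := hΦ _ hsupp hsp
  have hfac : MvPolynomial.map ι (co2 a l L F) =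
      MvPolynomial.map ι (co2 a l L g) * MvPolynomial.map ι (co2 a l L h) := by
    rw [hF, map_mul, map_mul]
  have key : ∀ p : MvPolynomial (Fin N) L, IsUnit (MvPolynomial.map ι (co2 a l L p)) →
      degreeOf a p = 0 ∧ degreeOf l p = 0 := by
    intro p hp
    obtain ⟨c, -, hc⟩ := isUnit_iff_eq_C_of_isReduced.mp hp
    refine free_of_const (g₀ := coeff 0 (co2 a l L p)) ?_
    ext1 e
    rw [coeff_C]
    split_ifs with h1
    · rw [← h1]
    · apply hιinj
      rw [map_zero, ← coeff_map, hc, coeff_C, if_neg h1]
  rcases hirr.isUnit_or_isUnit hfac with h1 | h1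
  · exact Or.inl (key g h1)
  · exact Or.inr (key h h1)

end

end Pool.Agent.Helper52K9.DL
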