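import Pool.Agent.Helper52K9.DL.Tw
import Pool.Agent.R867.H.Irr

/-! Conditions on the coefficients of a general polynomial. -/

set_option autoImplicit false

namespace Pool.Agent.Helper52K9.DL

open MvPolynomial

universe u v w z

section Phi

variable {k : Type u} [Field k] {M : ℕ}

/-- the universal polynomial -/
noncomputable def uG (k : Type u) [Field k] (S : Finset (Fin M →₀ ℕ)) :
    MvPolynomial (Fin M) (MvPolynomial S k) :=
  ∑ m : S, monomial (m : Fin M →₀ ℕ) (X m)

theorem map_uG {S : Finset (Fin M →₀ ℕ)} {E : Type v} [CommRing E] [Algebra k E]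
    {G : MvPolynomial (Fin M) E} (hG : G.support ⊆ S) :
    MvPolynomial.map (aeval (fun m : S => coeff (m : Fin M →₀ ℕ) G) :
      MvPolynomial S k →ₐ[k] E).toRingHom (uG k S) = G := by
  classical
  unfold uG
  rw [map_sum]
  have h1 : ∀ m : S, MvPolynomial.map (aeval (fun m : S => coeff (m : Fin M →₀ ℕ) G) :
      MvPolynomial S k →ₐ[k] E).toRingHom (monomial (m : Fin M →₀ ℕ) (X m)) =
      monomial (m : Fin M →₀ ℕ) (coeff (m : Fin M →₀ ℕ) G) := by
    intro m
    rw [map_monomial]
    congr 1
    exact aeval_X _ _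
  rw [Finset.sum_congr rfl fun m _ => h1 m,
    Finset.sum_coe_sort S (fun m => monomial m (coeff m G)), ← Finset.sum_subset hG]
  · exact G.support_sum_monomial_coeff
  · intro m _ hm
    rw [notMem_support_iff.mp hm, monomial_zero]

/-- a condition which is natural and which holds for some polynomial is a polynomial condition -/
theorem exists_Phi {S : Finset (Fin M →₀ ℕ)}
    (T : ∀ (R : Type u) [CommRing R] [Algebra k R], MvPolynomial (Fin M) R → R)
    (hT : ∀ {R : Type u} [CommRing R] [Algebra k R] {R' : Type u} [CommRing R'] [Algebra k R']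
      (φ : R →ₐ[k] R') (G : MvPolynomial (Fin M) R), φ (T R G) =
        T R' (MvPolynomial.map φ.toRingHom G)) {G₀ : MvPolynomial (Fin M) k}
    (h₀ : G₀.support ⊆ S) (hT₀ : T k G₀ ≠ 0) :
    ∃ Φ : MvPolynomial S k, Φ ≠ 0 ∧ ∀ {E : Type u} [Field E] [Algebra k E]
      (G : MvPolynomial (Fin M) E), G.support ⊆ S →
        aeval (fun m : S => coeff (m : Fin M →₀ ℕ) G) Φ = T E G := by
  have key : ∀ {E : Type u} [Field E] [Algebra k E] (G : MvPolynomial (Fin M) E),
      G.support ⊆ S → aeval (fun m : S => coeff (m : Fin M →₀ ℕ) G) (T _ (uG k S)) = T E G := by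
    intro E _ _ G hG
    rw [hT, map_uG hG]
  refine ⟨T _ (uG k S), fun h0 => hT₀ ?_, key⟩
  rw [← key G₀ h₀, h0, map_zero]

end Phi

section Sub

variable {k : Type u} [Field k] {M N : ℕ}

/-- substitution -/
noncomputable def sub (P : Fin M → MvPolynomial (Fin N) k) {R : Type v} [CommRing R]
    [Algebra k R] : MvPolynomial (Fin M) R →ₐ[R] MvPolynomial (Fin N) R :=
  aeval (fun m => MvPolynomial.map (algebraMap k R) (P m))

theorem sub_map (P : Fin M → MvPolynomial (Fin N) k) {R : Type v} [CommRing R] [Algebra k R]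
    {R' : Type w} [CommRing R'] [Algebra k R'] (φ : R →ₐ[k] R') (G : MvPolynomial (Fin M) R) :
    MvPolynomial.map φ.toRingHom (sub P G) = sub P (MvPolynomial.map φ.toRingHom G) := by
  unfold sub
  induction G using MvPolynomial.induction_on with
  | C c =>
    rw [aeval_C, map_C, aeval_C]
    change MvPolynomial.map φ.toRingHom (C c) = C _
    rw [map_C]
  | add p q hp hq => rw [map_add, map_add, hp, hq, map_add, map_add]
  | mul_X p m hp =>
    have h : φ.toRingHom.comp (algebraMap k R) = algebraMap k R' :=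
      RingHom.ext fun c => φ.commutes c
    rw [map_mul, map_mul, hp, map_mul, map_mul, map_X, aeval_X, aeval_X, MvPolynomial.map_map, h]

theorem sub_self (P : Fin M → MvPolynomial (Fin N) k) (G : MvPolynomial (Fin M) k) :
    sub P G = aeval P G := by
  unfold sub
  congr 2
  funext m
  exact MvPolynomial.map_id _

end Sub

section Deg

variable {R : Type v} [CommRing R] {M : ℕ}

/-- the degree of a substitution -/
theorem natDegree_aeval_le {B : Type u} [CommRing B] [Algebra B R]
    {W : Fin M → Polynomial R} {w : Fin M → ℕ} (hw : ∀ m, (W m).natDegree ≤ w m) {D : ℕ}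
    {G : MvPolynomial (Fin M) B} (hD : ∀ e ∈ G.support, ∑ m, e m * w m ≤ D) :
    (aeval W G).natDegree ≤ D := by
  classical
  rw [aeval_def, eval₂_eq']
  refine Polynomial.natDegree_sum_le_of_forall_le _ _ fun e he => ?_
  have h1 : (algebraMap B (Polynomial R) (coeff e G)).natDegree = 0 := by
    change (Polynomial.C (algebraMap B R (coeff e G))).natDegree = 0
    rw [Polynomial.natDegree_C]
  refine Polynomial.natDegree_mul_le.trans ?_
  rw [h1, zero_add]
  refine (Polynomial.natDegree_prod_le _ _).trans (le_trans ?_ (hD e he))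
  refine Finset.sum_le_sum fun m _ => ?_
  exact Polynomial.natDegree_pow_le.trans (Nat.mul_le_mul_left _ (hw m))

theorem degreeOf_prod_le' {σ ι : Type*} (i : σ) (s : Finset ι) (p : ι → MvPolynomial σ R) :
    degreeOf i (∏ m ∈ s, p m) ≤ ∑ m ∈ s, degreeOf i (p m) := by
  classical
  induction s using Finset.induction_on with
  | empty =>
    rw [Finset.prod_empty, Finset.sum_empty]
    have : degreeOf i (1 : MvPolynomial σ R) = 0 := degreeOf_C 1 i
    omega
  | insert m s hm ih =>
    rw [Finset.prod_insert hm, Finset.sum_insert hm]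
    exact (degreeOf_mul_le i _ _).trans (Nat.add_le_add_left ih _)

theorem degreeOf_aeval_le {σ : Type*} {B : Type u} [CommRing B] [Algebra B R]
    {W : Fin M → MvPolynomial σ R} {w : Fin M → ℕ} {i : σ} (hw : ∀ m, degreeOf i (W m) ≤ w m)
    {D : ℕ} {G : MvPolynomial (Fin M) B} (hD : ∀ e ∈ G.support, ∑ m, e m * w m ≤ D) :
    degreeOf i (aeval W G) ≤ D := by
  classical
  rw [aeval_def, eval₂_eq']
  refine (degreeOf_sum_le i _ _).trans (Finset.sup_le fun e he => ?_)
  refine (degreeOf_mul_le i _ _).trans ?_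
  have h1 : degreeOf i (algebraMap B (MvPolynomial σ R) (coeff e G)) = 0 := by
    change degreeOf i (C (algebraMap B R (coeff e G))) = 0
    rw [degreeOf_C]
  rw [h1, zero_add]
  refine (degreeOf_prod_le' _ _ _).trans (le_trans ?_ (hD e he))
  refine Finset.sum_le_sum fun m _ => ?_
  exact (degreeOf_pow_le i _ _).trans (Nat.mul_le_mul_left _ (hw m))

end Deg

end Pool.Agent.Helper52K9.DL
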