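import Pool.Agent.Helper52K9.DL.Base

/-! Families of lines with directions which are polynomials in a parameter. -/

set_option autoImplicit false

namespace Pool.Agent.Helper52K9.DL

open MvPolynomial Pool.Agent.R867.Mov Pool.Agent.R867.J Pool.Agent.R867.H Pool.Agent.R867.D
open Pool.Agent.Helper93K9.DC

universe u v w z

section Tw

variable {B : Type u} [CommRing B] {R : Type v} [CommRing R] [Algebra B R] {N : ℕ}

/-- the polynomial `f (x + s v(t))` -/
noncomputable def tw (x : Fin N → R) (v : Fin N → Polynomial R) :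
    MvPolynomial (Fin N) B →ₐ[B] Polynomial (Polynomial R) :=
  aeval (fun l => Polynomial.C (Polynomial.C (x l)) + Polynomial.X * Polynomial.C (v l))

theorem tw_X (x : Fin N → R) (v : Fin N → Polynomial R) (l : Fin N) : tw (B := B) x v (X l) =
    Polynomial.C (Polynomial.C (x l)) + Polynomial.X * Polynomial.C (v l) := by
  unfold tw
  rw [aeval_X]

theorem tw_C (x : Fin N → R) (v : Fin N → Polynomial R) (c : B) : tw x v (C c) =
    Polynomial.C (Polynomial.C (algebraMap B R c)) := by
  unfold tw
  rw [aeval_C]
  rfl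

/-- functoriality -/
theorem tw_map {B' : Type w} [CommRing B'] {R' : Type z} [CommRing R'] [Algebra B' R']
    (ψ : B →+* B') (φ : R →+* R') (h : ∀ b, φ (algebraMap B R b) = algebraMap B' R' (ψ b))
    (x : Fin N → R) (v : Fin N → Polynomial R) (f : MvPolynomial (Fin N) B) :
    (tw x v f).map (Polynomial.mapRingHom φ) =
      tw (fun l => φ (x l)) (fun l => (v l).map φ) (MvPolynomial.map ψ f) := by
  induction f using MvPolynomial.induction_on with
  | C c =>
    rw [tw_C, MvPolynomial.map_C, tw_C, Polynomial.map_C, Polynomial.coe_mapRingHom,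
      Polynomial.map_C, h]
  | add p q hp hq => rw [map_add, Polynomial.map_add, hp, hq, map_add, map_add]
  | mul_X p l hp =>
    rw [map_mul, Polynomial.map_mul, hp, map_mul, map_mul, MvPolynomial.map_X, tw_X, tw_X,
      Polynomial.map_add, Polynomial.map_mul, Polynomial.map_C, Polynomial.map_C,
      Polynomial.map_X, Polynomial.coe_mapRingHom, Polynomial.map_C]

theorem tw_coeff_natDegree (x : Fin N → R) {v : Fin N → Polynomial R} {e : ℕ}
    (hv : ∀ l, (v l).natDegree ≤ e) (f : MvPolynomial (Fin N) B) (m : ℕ) :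
    ((tw x v f).coeff m).natDegree ≤ e * m := by
  induction f using MvPolynomial.induction_on generalizing m with
  | C c =>
    rw [tw_C, Polynomial.coeff_C]
    split_ifs <;> simp
  | add p q hp hq =>
    rw [map_add, Polynomial.coeff_add]
    exact (Polynomial.natDegree_add_le _ _).trans (max_le (hp m) (hq m))
  | mul_X p l hp =>
    rw [map_mul, tw_X, mul_add, Polynomial.coeff_add, Polynomial.coeff_mul_C, ← mul_assoc,
      Polynomial.coeff_mul_C]
    refine (Polynomial.natDegree_add_le _ _).trans (max_le ?_ ?_)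
    · exact (Polynomial.natDegree_mul_C_le _ _).trans (hp m)
    · rcases m with _ | m
      · rw [Polynomial.coeff_mul_X_zero, zero_mul]
        simp
      · rw [Polynomial.coeff_mul_X]
        refine Polynomial.natDegree_mul_le.trans ?_
        have h1 := hp m
        have h2 := hv l
        rw [mul_add, mul_one]
        exact Nat.add_le_add h1 h2

theorem tw_coeff_zero (x : Fin N → R) (v : Fin N → Polynomial R) (f : MvPolynomial (Fin N) B) :
    (tw x v f).coeff 0 = Polynomial.C (aeval x f) := by
  induction f using MvPolynomial.induction_on with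
  | C c => rw [tw_C, Polynomial.coeff_C_zero, aeval_C]
  | add p q hp hq => rw [map_add, Polynomial.coeff_add, hp, hq, map_add, map_add]
  | mul_X p l hp =>
    rw [map_mul, Polynomial.mul_coeff_zero, hp, tw_X, Polynomial.coeff_add,
      Polynomial.coeff_C_zero, Polynomial.mul_coeff_zero, Polynomial.coeff_X_zero, zero_mul,
      add_zero, map_mul, map_mul, aeval_X]

end Tw

section Deg

variable {R : Type v} [CommRing R]

theorem cubP_natDegree {p : Polynomial (Polynomial R)}
    (h : ∀ m, (p.coeff m).natDegree ≤ 2 * m) : (cubP p).natDegree ≤ 6 := by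
  unfold cubP
  have n8 : ((8 : Polynomial R)).natDegree = 0 := by
    exact_mod_cast Polynomial.natDegree_natCast (R := R) 8
  have n4 : ((4 : Polynomial R)).natDegree = 0 := by
    exact_mod_cast Polynomial.natDegree_natCast (R := R) 4
  have h0 := h 0
  have h1 := h 1
  have h2 := h 2
  have h3 := h 3
  have e1 : (8 * p.coeff 0 ^ 2 * p.coeff 3).natDegree ≤ 6 := by
    refine Polynomial.natDegree_mul_le.trans ?_
    have := Polynomial.natDegree_mul_le (p := (8 : Polynomial R)) (q := p.coeff 0 ^ 2)
    have := Polynomial.natDegree_pow_le (p := p.coeff 0) (n := 2)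
    omega
  have e2 : (4 * p.coeff 0 * p.coeff 1 * p.coeff 2).natDegree ≤ 6 := by
    refine Polynomial.natDegree_mul_le.trans ?_
    have := Polynomial.natDegree_mul_le (p := 4 * p.coeff 0) (q := p.coeff 1)
    have := Polynomial.natDegree_mul_le (p := (4 : Polynomial R)) (q := p.coeff 0)
    omega
  have e3 : (p.coeff 1 ^ 3).natDegree ≤ 6 := by
    have := Polynomial.natDegree_pow_le (p := p.coeff 1) (n := 3)
    omega
  have e4 := Polynomial.natDegree_add_le (8 * p.coeff 0 ^ 2 * p.coeff 3 -
    4 * p.coeff 0 * p.coeff 1 * p.coeff 2) (p.coeff 1 ^ 3)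
  have e5 := Polynomial.natDegree_sub_le (8 * p.coeff 0 ^ 2 * p.coeff 3)
    (4 * p.coeff 0 * p.coeff 1 * p.coeff 2)
  refine Polynomial.natDegree_mul_le.trans ?_
  rw [n8, zero_add]
  exact e4.trans (max_le (e5.trans (max_le e1 e2)) e3)

theorem denP_natDegree {p : Polynomial (Polynomial R)}
    (h : ∀ m, (p.coeff m).natDegree ≤ 2 * m) : (denP p).natDegree ≤ 8 := by
  unfold denP
  have n64 : ((64 : Polynomial R)).natDegree = 0 := by
    exact_mod_cast Polynomial.natDegree_natCast (R := R) 64
  have n4 : ((4 : Polynomial R)).natDegree = 0 := by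
    exact_mod_cast Polynomial.natDegree_natCast (R := R) 4
  have h0 := h 0
  have h1 := h 1
  have h2 := h 2
  have h4 := h 4
  have e1 : (4 * p.coeff 0 * p.coeff 2).natDegree ≤ 4 := by
    refine Polynomial.natDegree_mul_le.trans ?_
    have := Polynomial.natDegree_mul_le (p := (4 : Polynomial R)) (q := p.coeff 0)
    omega
  have e2 : (p.coeff 1 ^ 2).natDegree ≤ 4 := by
    have := Polynomial.natDegree_pow_le (p := p.coeff 1) (n := 2)
    omega
  have e3 := (Polynomial.natDegree_sub_le (4 * p.coeff 0 * p.coeff 2)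
    (p.coeff 1 ^ 2)).trans (max_le e1 e2)
  have e4 := Polynomial.natDegree_pow_le (p := 4 * p.coeff 0 * p.coeff 2 - p.coeff 1 ^ 2) (n := 2)
  have e5 : (64 * p.coeff 0 ^ 3 * p.coeff 4).natDegree ≤ 8 := by
    refine Polynomial.natDegree_mul_le.trans ?_
    have := Polynomial.natDegree_mul_le (p := (64 : Polynomial R)) (q := p.coeff 0 ^ 3)
    have := Polynomial.natDegree_pow_le (p := p.coeff 0) (n := 3)
    omega
  refine (Polynomial.natDegree_sub_le _ _).trans (max_le ?_ e5)
  omega

/-- the nondegeneracy condition -/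
noncomputable def ndP (p : Polynomial (Polynomial R)) : R :=
  (cubP p).coeff 6 * Polynomial.resultant (cubP p) (Polynomial.derivative (cubP p)) 6 5 *
    Polynomial.resultant (cubP p) (denP p) 6 8

theorem ndP_map {S : Type w} [CommRing S] (φ : R →+* S) (p : Polynomial (Polynomial R)) :
    ndP (p.map (Polynomial.mapRingHom φ)) = φ (ndP p) := by
  unfold ndP
  rw [cubP_map, denP_map, Polynomial.coe_mapRingHom, Polynomial.coeff_map,
    Polynomial.derivative_map, Polynomial.resultant_map_map, Polynomial.resultant_map_map,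
    map_mul, map_mul]

end Deg

section Fld

variable {K : Type v} [Field K]

theorem ndP_iff [CharZero K] {p : Polynomial (Polynomial K)}
    (h : ∀ m, (p.coeff m).natDegree ≤ 2 * m) : ndP p ≠ 0 ↔ (cubP p).coeff 6 ≠ 0 ∧
      IsCoprime (cubP p) (Polynomial.derivative (cubP p)) ∧ IsCoprime (cubP p) (denP p) := by
  unfold ndP
  rw [mul_ne_zero_iff, mul_ne_zero_iff, and_assoc]
  refine and_congr_right fun hc => ?_
  rw [res_iff (cubP_natDegree h) hc (denP_natDegree h),
    res_iff (cubP_natDegree h) hc ((Polynomial.natDegree_derivative_le _).trans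
      (Nat.sub_le_sub_right (cubP_natDegree h) 1))]

/-- a polynomial of degree less than six which vanishes at all good parameters -/
theorem eq_zero_of_slopes [CharZero K] {p : Polynomial (Polynomial K)}
    (hdeg : ∀ m, (p.coeff m).natDegree ≤ 2 * m) (h : ndP p ≠ 0) {Q : Polynomial K}
    (hQ : Q.natDegree < 6)
    (hroot : ∀ τ : AlgebraicClosure K,
      (cubP p).eval₂ (algebraMap K (AlgebraicClosure K)) τ = 0 →
      (Polynomial.derivative (cubP p)).eval₂ (algebraMap K (AlgebraicClosure K)) τ ≠ 0 →
      (denP p).eval₂ (algebraMap K (AlgebraicClosure K)) τ ≠ 0 →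
      Q.eval₂ (algebraMap K (AlgebraicClosure K)) τ = 0) : Q = 0 := by
  classical
  obtain ⟨h3, hsep, hcop⟩ := (ndP_iff hdeg).mp h
  obtain ⟨P, hP⟩ : ∃ P, P = (cubP p).map (algebraMap K (AlgebraicClosure K)) := ⟨_, rfl⟩
  have hdeg6 : (cubP p).natDegree = 6 :=
    le_antisymm (cubP_natDegree hdeg) (Polynomial.le_natDegree_of_ne_zero h3)
  have hPs : P.Separable := by
    rw [hP]
    exact (Polynomial.separable_map _).mpr hsep
  have hPd : P.natDegree = 6 := by rw [hP, Polynomial.natDegree_map, hdeg6]
  have hroots : P.roots.card = 6 := by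
    rw [← hPd]
    exact (IsAlgClosed.splits P).natDegree_eq_card_roots.symm
  have hnd : P.roots.Nodup := Polynomial.nodup_roots hPs
  have hfin : P.roots.toFinset.card = 6 := by
    rw [Multiset.toFinset_card_of_nodup hnd, hroots]
  have hP0 : P ≠ 0 := by
    intro h0
    rw [h0] at hPd
    simp at hPd
  have h1 : Q.map (algebraMap K (AlgebraicClosure K)) = 0 := by
    refine Polynomial.eq_zero_of_natDegree_lt_card_of_eval_eq_zero' _ P.roots.toFinset ?_ ?_
    · intro s hs
      rw [Multiset.mem_toFinset, Polynomial.mem_roots hP0, hP, Polynomial.IsRoot,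
        Polynomial.eval_map] at hs
      rw [Polynomial.eval_map]
      refine hroot s hs (fun h0 => ?_) (fun h0 => ?_)
      · obtain ⟨a, b, hab⟩ := hsep
        have h1 := congrArg (Polynomial.eval₂ (algebraMap K (AlgebraicClosure K)) s) hab
        rw [Polynomial.eval₂_add, Polynomial.eval₂_mul, Polynomial.eval₂_mul, hs, h0, mul_zero,
          mul_zero, add_zero, Polynomial.eval₂_one] at h1
        exact zero_ne_one h1
      · obtain ⟨a, b, hab⟩ := hcop
        have h1 := congrArg (Polynomial.eval₂ (algebraMap K (AlgebraicClosure K)) s) hab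
        rw [Polynomial.eval₂_add, Polynomial.eval₂_mul, Polynomial.eval₂_mul, hs, h0, mul_zero,
          mul_zero, add_zero, Polynomial.eval₂_one] at h1
        exact zero_ne_one h1
    · rw [hfin]
      exact lt_of_le_of_lt Polynomial.natDegree_map_le hQ
  exact (Polynomial.map_eq_zero _).mp h1

end Fld

section Kill

variable {k K : Type u} [Field k] [Field K] [Algebra k K] {N : ℕ} {ξ : Fin (N + 1) → K}
  {f : MvPolynomial (Fin N) k}

theorem gamma_tw (x : Fin N → K) (v : Fin N → Polynomial K) :
    aeval (fun l => Polynomial.C (Polynomial.C (x l)) + Polynomial.X * Polynomial.C (v l)) f =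
      (1 : Polynomial (Polynomial K)) ^ 2 * tw x v f := by
  rw [one_pow, one_mul]
  rfl

/-- the directions of a nondegenerate family kill the immovable functions -/
theorem kill_tw [CharZero k] (hξ : GP (cover f) ξ)
    (hF0 : aeval (fun l : Fin N => ξ l.succ) f ≠ 0) {v : Fin N → Polynomial K}
    (hv : ∀ l, (v l).natDegree ≤ 2) {D : Fin N → Derivation k K K}
    (hD : ∀ l m : Fin N, D l (ξ m.succ) = if m = l then 1 else 0)
    (h : (tw (fun l => ξ l.succ) v f).natDegree ≤ 4 ∧ ndP (tw (fun l => ξ l.succ) v f) ≠ 0 ∨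
      (tw (fun l => ξ l.succ) v f).natDegree ≤ 2 ∧ denP (tw (fun l => ξ l.succ) v f) ≠ 0)
    {a : K} (ha : Imm k a) : ∑ l, v l * Polynomial.C (D l a) = 0 := by
  have hcK : CharZero K := charZero_of_injective_algebraMap (algebraMap k K).injective
  have h1 : ∀ l, (Polynomial.C (Polynomial.C (ξ l.succ)) + Polynomial.X * Polynomial.C (v l) :
      Polynomial (Polynomial K)).coeff 0 = Polynomial.C (ξ l.succ) := fun l => by
    simp
  have h2 : ∀ l, (Polynomial.C (Polynomial.C (ξ l.succ)) + Polynomial.X * Polynomial.C (v l) :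
      Polynomial (Polynomial K)).coeff 1 = v l := fun l => by
    simp [Polynomial.coeff_C]
  have hQ : ∀ τ : AlgebraicClosure K, (∑ l, v l * Polynomial.C (D l a)).eval₂
      (algebraMap K (AlgebraicClosure K)) τ = ∑ l, ((Polynomial.C (Polynomial.C (ξ l.succ)) +
        Polynomial.X * Polynomial.C (v l) : Polynomial (Polynomial K)).coeff 1).eval₂
          (algebraMap K (AlgebraicClosure K)) τ * algebraMap K (AlgebraicClosure K) (D l a) := by
    intro τ
    rw [Polynomial.eval₂_finsetSum]
    refine Finset.sum_congr rfl fun l _ => ?_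
    rw [h2, Polynomial.eval₂_mul, Polynomial.eval₂_C]
  rcases h with ⟨h4, hnd⟩ | ⟨h4, hden⟩
  · refine eq_zero_of_slopes (tw_coeff_natDegree _ hv f) hnd ?_ ?_
    · refine lt_of_le_of_lt (Polynomial.natDegree_sum_le _ _) ?_
      rw [Finset.fold_max_lt]
      refine ⟨by norm_num, fun l _ => ?_⟩
      have := Polynomial.natDegree_mul_C_le (v l) (D l a)
      have := hv l
      simp only [Function.comp_apply]
      omega
    · intro τ hτ1 hτ2 hτ3
      rw [hQ]
      exact kill_curve hξ hF0 (r := 1) (p := tw (fun l => ξ l.succ) v f) h1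
        Polynomial.coeff_one_zero h4 (gamma_tw _ _) hD (algebraMap K (AlgebraicClosure K))
        hτ1 hτ2 hτ3 ha
  · apply Polynomial.map_injective _ (algebraMap K (AlgebraicClosure K)).injective
    rw [Polynomial.map_zero]
    have h5 : (∑ l, v l * Polynomial.C (D l a)).map (algebraMap K (AlgebraicClosure K)) *
        (denP (tw (fun l => ξ l.succ) v f)).map (algebraMap K (AlgebraicClosure K)) = 0 := by
      apply Polynomial.funext
      intro τ
      rw [Polynomial.eval_mul, Polynomial.eval_map, Polynomial.eval_map, Polynomial.eval_zero]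
      by_cases h6 : (denP (tw (fun l => ξ l.succ) v f)).eval₂
          (algebraMap K (AlgebraicClosure K)) τ = 0
      · rw [h6, mul_zero]
      · rw [hQ, kill_curve2 hξ hF0 (r := 1) (p := tw (fun l => ξ l.succ) v f) h1
          Polynomial.coeff_one_zero h4 (gamma_tw _ _) hD (algebraMap K (AlgebraicClosure K))
          h6 ha, zero_mul]
    exact (mul_eq_zero.mp h5).resolve_right
      ((Polynomial.map_ne_zero_iff (algebraMap K (AlgebraicClosure K)).injective).mpr hden)

end Kill

end Pool.Agent.Helper52K9.DL
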